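import Pool.Agent.H207.WH.Main

set_option autoImplicit false

namespace Pool.Agent.H207.WH

open Finset

variable {N : ℕ} [NeZero N]

theorem norm_disp (g : ZMod N × ZMod N) (ψ : EuclideanSpace ℂ (ZMod N)) : ‖disp g ψ‖ = ‖ψ‖ := by
  have h1 : ‖disp g ψ‖ ^ 2 = ‖ψ‖ ^ 2 := by
    rw [EuclideanSpace.norm_sq_eq, EuclideanSpace.norm_sq_eq, ← Equiv.sum_comp (Equiv.addRight g.1)
      (fun i => ‖ψ i‖ ^ 2)]
    apply Finset.sum_congr rfl
    intro k _
    simp only [disp, Equiv.coe_addRight, norm_mul, norm_char, one_mul]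
  exact (pow_left_inj₀ (norm_nonneg _) (norm_nonneg _) two_ne_zero).mp h1

end Pool.Agent.H207.WH
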