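import Pool.Agent.H207.WH.Cong
import Pool.Agent.H207.WH.Norm

/-!
# Weyl-Heisenberg fiducial vectors, their symmetries and places over `p`
-/

set_option autoImplicit false

namespace Pool.Agent.H207.WH

open Finset ComplexConjugate

variable {p : ℕ} [Fact p.Prime]

theorem ov_ovl (ψ : ZMod p → ℂ) (a b : ZMod p) :
    ov ZMod.stdAddChar (fun k => conj (ψ k)) ψ a b = ovl ψ a b := by
  rw [ov, ovl]
  apply Finset.sum_congr rfl
  intro k _
  ring

theorem ovl_conj (ψ : ZMod p → ℂ) (a b : ZMod p) :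
    ovl ψ (-a) (-b) = ZMod.stdAddChar (-(a * b)) * conj (ovl ψ a b) := by
  rw [← ov_ovl, ov_neg, ← ov_ovl, ov, map_sum]
  congr 1
  apply Finset.sum_congr rfl
  intro k _
  rw [map_mul, map_mul, Complex.conj_conj, AddChar.map_neg_eq_conj]

theorem sic_of (ψ : EuclideanSpace ℂ (ZMod p)) (h1 : ‖ψ‖ = 1)
    (h2 : ∀ g : ZMod p × ZMod p, g ≠ 0 → ‖inner ℂ ψ (disp g ψ)‖ = 1 / √((p : ℝ) + 1)) :
    Sic ZMod.stdAddChar (fun k => conj (ψ k)) ψ := by
  constructor
  · rw [ov_ovl, ovl_zero, h1]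
    simp
  · intro a b hab
    rw [ov_ovl, ov_ovl, ovl_conj]
    have h3 := h2 (a, b) (fun h => hab ⟨congrArg Prod.fst h, congrArg Prod.snd h⟩)
    rw [inner_disp] at h3
    simp only at h3
    have h4 : ovl ψ a b * conj (ovl ψ a b) = ((p : ℂ) + 1)⁻¹ := by
      rw [Complex.mul_conj, Complex.normSq_eq_norm_sq, h3, div_pow, one_pow,
        Real.sq_sqrt (by positivity)]
      push_cast
      rw [one_div]
    rw [← h4]
    ring

theorem disp_smul (g : ZMod p × ZMod p) (c : ℂ) (x : EuclideanSpace ℂ (ZMod p)) :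
    disp g (c • x) = c • disp g x := by
  ext k
  simp only [disp, PiLp.smul_apply, smul_eq_mul]
  ring

theorem disp_zero (x : EuclideanSpace ℂ (ZMod p)) : disp (0 : ZMod p × ZMod p) x = x := by
  ext k
  simp [disp]

theorem disp_disp (g h : ZMod p × ZMod p) (x : EuclideanSpace ℂ (ZMod p)) :
    disp g (disp h x) = (ZMod.stdAddChar (h.2 * g.1) : ℂ) • disp (g + h) x := by
  ext k
  simp only [disp, PiLp.smul_apply, smul_eq_mul, Prod.fst_add, Prod.snd_add]
  have e1 : k + g.1 + h.1 = k + (g.1 + h.1) := by ring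
  have e2 : (ZMod.stdAddChar (g.2 * k) : ℂ) * ZMod.stdAddChar (h.2 * (k + g.1))
      = ZMod.stdAddChar (h.2 * g.1) * ZMod.stdAddChar ((g.2 + h.2) * k) := by
    rw [← AddChar.map_add_eq_mul, ← AddChar.map_add_eq_mul]; congr 1; ring
  rw [e1, ← mul_assoc, e2, mul_assoc]

theorem disp_iter (g : ZMod p × ZMod p) (x : EuclideanSpace ℂ (ZMod p)) (n : ℕ) :
    (disp g)^[n] x = (ZMod.stdAddChar (((n.choose 2 : ℕ) : ZMod p) * (g.1 * g.2)) : ℂ) • disp (n • g) x := by
  induction n with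
  | zero =>
    rw [Function.iterate_zero, id, zero_smul, disp_zero]
    simp
  | succ n ih =>
    rw [Function.iterate_succ_apply', ih, disp_smul, disp_disp, smul_smul,
      ← AddChar.map_add_eq_mul]
    congr 1
    · congr 1
      rw [Nat.choose_succ_succ' n 1, Nat.choose_one_right]
      have e1 : (n • g).2 = (n : ZMod p) * g.2 := by
        rw [Prod.smul_snd, nsmul_eq_mul]
      rw [e1]
      push_cast
      ring
    · rw [add_comm, ← succ_nsmul]

theorem disp_p (hp2 : p ≠ 2) (g : ZMod p × ZMod p) (x : EuclideanSpace ℂ (ZMod p)) :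
    (disp g)^[p] x = x := by
  have hp : p.Prime := Fact.out
  have h2 : 2 < p := lt_of_le_of_ne hp.two_le (Ne.symm hp2)
  rw [disp_iter]
  have h1 : ((p.choose 2 : ℕ) : ZMod p) = 0 := by
    rw [ZMod.natCast_eq_zero_iff]
    exact hp.dvd_choose_self (by norm_num) h2
  have h3 : p • g = 0 := by
    ext <;> simp
  rw [h1, zero_mul, AddChar.map_zero_eq_one, one_smul, h3, disp_zero]

/-- a unitary symmetry in the Clifford group permutes the overlaps up to `p`-th roots of unity -/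
theorem clifford (hp2 : p ≠ 2) (ψ : EuclideanSpace ℂ (ZMod p)) (hψ : ‖ψ‖ = 1)
    (M : ZMod p × ZMod p → ZMod p × ZMod p)
    (U : EuclideanSpace ℂ (ZMod p) ≃ₗᵢ[ℂ] EuclideanSpace ℂ (ZMod p))
    (hU : ∃ c : ℂ, U ψ = c • ψ)
    (hM : ∀ g, ∃ c : ℂ, ∀ x, U (disp g x) = c • disp (M g) (U x)) (g : ZMod p × ZMod p) :
    ∃ j : ZMod p, inner ℂ ψ (disp (M g) ψ) = ZMod.stdAddChar j * inner ℂ ψ (disp g ψ) := by
  have hp : p.Prime := Fact.out
  obtain ⟨l, hl⟩ := hU
  obtain ⟨c, hc⟩ := hM g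
  have hψ0 : ψ ≠ 0 := by intro h; rw [h, norm_zero] at hψ; exact zero_ne_one hψ
  have hln : ‖l‖ = 1 := by
    have h1 : ‖U ψ‖ = 1 := by rw [LinearIsometryEquiv.norm_map, hψ]
    rw [hl, norm_smul, hψ, mul_one] at h1
    exact h1
  have hiter : ∀ n : ℕ, ∀ x, U ((disp g)^[n] x) = c ^ n • (disp (M g))^[n] (U x) := by
    intro n
    induction n with
    | zero => intro x; simp
    | succ n ih =>
      intro x
      rw [Function.iterate_succ_apply', hc, ih, Function.iterate_succ_apply', disp_smul, smul_smul,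
        pow_succ']
  have hcp : c ^ p = 1 := by
    have h1 := hiter p ψ
    rw [disp_p hp2, disp_p hp2] at h1
    have h2 : U ψ ≠ 0 := by
      intro h
      apply hψ0
      rw [← norm_eq_zero, ← LinearIsometryEquiv.norm_map U, h, norm_zero]
    have h3 : (c ^ p - 1) • U ψ = 0 := by rw [sub_smul, one_smul, ← h1, sub_self]
    exact sub_eq_zero.mp ((smul_eq_zero.mp h3).resolve_right h2)
  have hc0 : c ≠ 0 := by
    intro h
    rw [h, zero_pow hp.ne_zero] at hcp
    exact zero_ne_one hcp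
  have hprim : IsPrimitiveRoot (ZMod.stdAddChar (1 : ZMod p) : ℂ) p := by
    have h1 : (ZMod.stdAddChar (1 : ZMod p) : ℂ) ^ p = 1 := chi_pow _ _
    have h2 : (ZMod.stdAddChar (1 : ZMod p) : ℂ) ≠ 1 := by
      intro h
      have h3 : (ZMod.stdAddChar (1 : ZMod p) : ℂ) = ZMod.stdAddChar (0 : ZMod p) := by
        rw [h, AddChar.map_zero_eq_one]
      exact one_ne_zero (ZMod.injective_stdAddChar h3)
    have h3 := orderOf_eq_prime h1 h2
    have h4 := IsPrimitiveRoot.orderOf (ZMod.stdAddChar (1 : ZMod p) : ℂ)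
    rwa [h3] at h4
  have : NeZero p := ⟨hp.ne_zero⟩
  obtain ⟨i, _, hi⟩ := hprim.eq_pow_of_pow_eq_one hcp
  refine ⟨-(i : ZMod p), ?_⟩
  have hci : c = ZMod.stdAddChar (i : ZMod p) := by
    rw [← hi, ← AddChar.map_nsmul_eq_pow]
    congr 1
    simp
  have h1 : inner ℂ ψ (disp g ψ) = c * inner ℂ ψ (disp (M g) ψ) := by
    rw [← LinearIsometryEquiv.inner_map_map U, hc, hl, disp_smul, inner_smul_left, inner_smul_right,
      inner_smul_right]
    have h2 : conj l * l = 1 := by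
      rw [mul_comm, Complex.mul_conj, Complex.normSq_eq_norm_sq, hln]
      norm_num
    linear_combination (c * inner ℂ ψ (disp (M g) ψ)) * h2
  rw [h1, ← mul_assoc]
  have h2 : (ZMod.stdAddChar (-(i : ZMod p)) : ℂ) * c = 1 := by
    rw [hci, ← AddChar.map_add_eq_mul, neg_add_cancel, AddChar.map_zero_eq_one]
  rw [h2, one_mul]

/-- Zauner's matrix has no eigenvector if `p ≡ 2 mod 3` -/
theorem zauner (h3 : p % 3 = 2) (v : ZMod p × ZMod p) (hv : v ≠ 0) (c : ZMod p) :
    (-v.2, v.1 - v.2) ≠ c • v := by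
  have hp : p.Prime := Fact.out
  intro h
  have e1 : -v.2 = c * v.1 := congrArg Prod.fst h
  have e2 : v.1 - v.2 = c * v.2 := congrArg Prod.snd h
  have hv1 : v.1 ≠ 0 := by
    intro h0
    apply hv
    rw [h0, mul_zero, neg_eq_zero] at e1
    exact Prod.ext h0 e1
  have hc : c ^ 2 + c + 1 = 0 := by
    have : v.1 * (c ^ 2 + c + 1) = 0 := by linear_combination (-(c + 1)) * e1 + e2
    exact (mul_eq_zero.mp this).resolve_left hv1
  have hc3 : c ^ 3 = 1 := by linear_combination (c - 1) * hc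
  have hc1 : c ≠ 1 := by
    intro h1
    rw [h1] at hc
    have h4 : ((3 : ℕ) : ZMod p) = 0 := by push_cast; linear_combination hc
    rw [ZMod.natCast_eq_zero_iff] at h4
    have := (Nat.prime_dvd_prime_iff_eq hp Nat.prime_three).mp h4
    omega
  have hc0 : c ≠ 0 := by
    intro h0
    rw [h0] at hc
    simp at hc
  have ho : orderOf c = 3 := orderOf_eq_prime hc3 hc1
  have hd : orderOf c ∣ p - 1 := orderOf_dvd_of_pow_eq_one (ZMod.pow_card_sub_one_eq_one hc0)
  rw [ho] at hd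
  have := hp.two_le
  omega

end Pool.Agent.H207.WH
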