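import Pool.Agent.H207.WH.Cls2

/-!
# The number of powers of `Y` in suitable coordinates is at most `(p - 1) / 2`
-/

set_option autoImplicit false

namespace Pool.Agent.H207.WH

open Finset Polynomial

variable {K : Type*} [Field K] {p : ℕ}

theorem coeff_comp_negX (q : K[X]) (n : ℕ) : (q.comp (-X)).coeff n = (-1) ^ n * q.coeff n := by
  induction q using Polynomial.induction_on' with
  | add f g hf hg => rw [add_comp, coeff_add, hf, hg, coeff_add]; ring
  | monomial m a =>
    rw [← C_mul_X_pow_eq_monomial, mul_comp, C_comp, pow_comp, X_comp, neg_pow, coeff_C_mul,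
      coeff_C_mul, ← C_1, ← C_neg, ← C_pow, coeff_C_mul, coeff_X_pow]
    by_cases h : n = m
    · rw [h, if_pos rfl]; ring
    · rw [if_neg h]; ring

theorem coeff_two (f g : K[X]) (a : ℕ) (ha : 1 ≤ a)
    (h : ∀ a1 a2, a1 + a2 = a → 1 ≤ a1 → 1 ≤ a2 → f.coeff a1 * g.coeff a2 = 0) :
    (f * g).coeff a = f.coeff 0 * g.coeff a + f.coeff a * g.coeff 0 := by
  rw [coeff_mul, Finset.sum_eq_add_of_mem (0, a) (a, 0)]
  · simp
  · simp
  · intro h; simp only [Prod.mk.injEq] at h; omega
  · rintro ⟨a1, a2⟩ hc ⟨h1, h2⟩
    rw [Finset.HasAntidiagonal.mem_antidiagonal] at hc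
    simp only at hc
    apply h a1 a2 hc
    · by_contra hcon
      have : a1 = 0 := by omega
      subst this
      apply h1
      rw [zero_add] at hc
      rw [hc]
    · by_contra hcon
      have : a2 = 0 := by omega
      subst this
      apply h2
      rw [add_zero] at hc
      rw [hc]

variable [Fact p.Prime]

theorem cast_ne (ι : ZMod p →+* K) {m : ℕ} (h1 : 1 ≤ m) (h2 : m < p) : (m : K) ≠ 0 := by
  intro h
  have h3 : ι (m : ZMod p) = 0 := by rw [map_natCast]; exact h
  have h4 : (m : ZMod p) = 0 := by apply ι.injective; rw [h3, map_zero]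
  rw [ZMod.natCast_eq_zero_iff] at h4
  have := Nat.le_of_dvd (by omega) h4
  omega

/-- in coordinates for which the top form has no power of `Y`, at most `(p - 1) / 2` powers of `Y`
occur -/
theorem low [Infinite K] (ι : ZMod p →+* K) (hp2 : p ≠ 2) (s : ZMod p → ZMod p → K)
    (hs : LinProd s) (ρ : K) (D : ℕ)
    (htop : ∀ b a, D + 1 ≤ a + b → (AA ι s b).coeff a = 0)
    (hne : ∃ b a, a + b = D ∧ (AA ι s b).coeff a ≠ 0)
    (hρ : (sh ρ (AA ι s) D).coeff 0 = 0) :
    ∃ J, 2 * J + 1 ≤ p ∧ ∀ b, J < b → sh ρ (AA ι s) b = 0 := by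
  classical
  have hp : p.Prime := Fact.out
  have hodd : p % 2 = 1 := (hp.eq_two_or_odd).resolve_left hp2
  have hfam : Fam p (sh ρ (AA ι s)) := sh_fam ρ _ (AA_fam ι s)
  have hlow := sh_low ρ (AA ι s) (D + 1) htop
  have hstar := starE ι s hs ρ
  -- T3
  have hT3 : ∃ b a, a + b = D ∧ (sh ρ (AA ι s) b).coeff a ≠ 0 := by
    obtain ⟨a, hab, hc⟩ := Nat.find_spec hne
    have hmin := fun m (hm : m < Nat.find hne) => Nat.find_min hne hm
    set b := Nat.find hne with hb
    refine ⟨b, a, hab, ?_⟩
    rw [sh_coeff, Finset.sum_eq_single b]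
    · simpa using hc
    · intro k hk hkb
      rw [Finset.mem_range] at hk
      have h1 := hmin k (by omega)
      push Not at h1
      rw [h1 (a + (b - k)) (by omega), mul_zero, mul_zero]
    · intro h; exact absurd (Finset.mem_range.mpr (by omega)) h
  set β := sh ρ (AA ι s) with hβ
  have hbig : ∀ b, p ≤ b → β b = 0 := by
    intro b hb
    ext a
    rw [hfam b a (by omega), coeff_zero]
  -- the maximal J
  obtain ⟨J, hJ0, hJmax⟩ : ∃ J, β J ≠ 0 ∧ ∀ b, J < b → β b = 0 := by
    obtain ⟨b, a, -, hc⟩ := hT3
    have hb0 : β b ≠ 0 := by intro h; rw [h, coeff_zero] at hc; exact hc rfl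
    have hbp : b ≤ p := by
      by_contra hcon
      exact hb0 (hbig b (by omega))
    refine ⟨Nat.findGreatest (fun b => β b ≠ 0) p,
      Nat.findGreatest_spec (P := fun b => β b ≠ 0) hbp hb0, ?_⟩
    intro c hc
    by_cases hcp : c ≤ p
    · have := Nat.findGreatest_is_greatest hc hcp
      push Not at this
      exact this
    · exact hbig c (by omega)
  refine ⟨J, ?_, hJmax⟩
  by_contra hcon
  have h2J : p + 1 ≤ 2 * J := by omega
  have hJp : J < p := by
    by_contra h
    exact hJ0 (hbig J (by omega))
  have hJdeg := hfam.deg J hJp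
  -- evaluation of the double sums
  have hterm0 : ∀ b b' : ℕ, J < b ∨ J < b' → ∀ (j u : ℕ), ((b'.choose j : ℕ) : K) *
      (-1) ^ (b' + j) * (β b * (β b').comp (-X)).coeff u = 0 := by
    intro b b' h j u
    rcases h with h | h
    · rw [hJmax b h]; simp
    · rw [hJmax b' h]; simp
  -- 7a
  have h7a : (β J).natDegree = 0 := by
    by_contra hn
    set n := (β J).natDegree with hnd
    have h1 := hstar (2 * n) (p - 1) (2 * J - (p - 1)) (by omega) (by omega) (by omega)
    have hsum : p - 1 + (2 * J - (p - 1)) = 2 * J := by omega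
    rw [hsum, Finset.sum_eq_single J] at h1
    · rw [Finset.sum_eq_single J, if_pos (by omega)] at h1
      · have h2 : (β J * (β J).comp (-X)).coeff (2 * n)
            = (β J).leadingCoeff * ((-1) ^ n * (β J).leadingCoeff) := by
          have h3 : ((β J).comp (-X)).natDegree ≤ n := by
            refine natDegree_comp_le.trans ?_
            rw [natDegree_neg, natDegree_X, mul_one]
          rw [two_mul, coeff_mul_add_eq_of_natDegree_le le_rfl h3, coeff_comp_negX]
          rfl
        rw [h2] at h1
        have h4 := choose_ne ι hJp (show 2 * J - (p - 1) ≤ J by omega)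
        have h5 : (β J).leadingCoeff ≠ 0 := leadingCoeff_ne_zero.mpr hJ0
        have h6 : ∀ m : ℕ, ((-1 : K)) ^ m ≠ 0 := fun m => pow_ne_zero _ (neg_ne_zero.mpr one_ne_zero)
        exact absurd h1 (mul_ne_zero (mul_ne_zero h4 (h6 _)) (mul_ne_zero h5 (mul_ne_zero (h6 _) h5)))
      · intro b' _ hb'
        rw [if_neg (by omega)]
      · intro h; exact absurd (Finset.mem_range.mpr hJp) h
    · intro b _ hbJ
      apply Finset.sum_eq_zero
      intro b' _
      split_ifs with hE
      · apply hterm0; omega
      · rfl
    · intro h; exact absurd (Finset.mem_range.mpr hJp) h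
  have hJa : ∀ a, 1 ≤ a → (β J).coeff a = 0 :=
    fun a ha => coeff_eq_zero_of_natDegree_lt (by omega)
  have hJc : (β J).coeff 0 ≠ 0 := by
    intro h
    apply hJ0
    ext a
    rcases Nat.eq_zero_or_pos a with h1 | h1
    · rw [h1, h, coeff_zero]
    · rw [hJa a h1, coeff_zero]
  -- 7b
  have h7b : ∀ a, 1 ≤ a → ∀ b, (β b).coeff a ≠ 0 → a + b ≤ J := by
    intro a
    induction a using Nat.strong_induction_on with
    | _ a ih =>
      intro ha b1 hb1
      by_contra hcon1
      have hb1p : b1 ≤ p := by
        by_contra h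
        apply hb1
        rw [hbig b1 (by omega), coeff_zero]
      obtain ⟨b0, hb0, hb0J, hb0max⟩ : ∃ b0, (β b0).coeff a ≠ 0 ∧ J < a + b0 ∧
          ∀ b, b0 < b → (β b).coeff a = 0 := by
        have hspec := Nat.findGreatest_spec (P := fun b => (β b).coeff a ≠ 0) hb1p hb1
        refine ⟨_, hspec, ?_, ?_⟩
        · have := Nat.le_findGreatest (P := fun b => (β b).coeff a ≠ 0) hb1p hb1
          omega
        · intro c hc
          by_cases hcp : c ≤ p
          · have := Nat.findGreatest_is_greatest hc hcp
            push Not at this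
            exact this
          · rw [hbig c (by omega), coeff_zero]
      have hb0J2 : b0 < J := by
        rcases lt_trichotomy b0 J with h | h | h
        · exact h
        · rw [h, hJa a ha] at hb0; exact absurd rfl hb0
        · rw [hJmax b0 h, coeff_zero] at hb0; exact absurd rfl hb0
      have habp : a + b0 < p := by
        by_contra h
        exact hb0 (hfam b0 a (by omega))
      have hE : ∀ j, j ≤ b0 + J → b0 + J - j + 1 ≤ p → p ≤ a + (b0 + J - j) →
          ((J.choose j : ℕ) : K) * (-1) ^ J + ((b0.choose j : ℕ) : K) * (-1) ^ (b0 + a) = 0 := by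
        intro j hj1 hj2 hj3
        have h1 := hstar a (b0 + J - j) j (by omega) hj2 hj3
        have hsum : b0 + J - j + j = b0 + J := by omega
        rw [hsum] at h1
        have hco : ∀ b b', b + b' = b0 + J → b ≤ J → b' ≤ J →
            (β b * (β b').comp (-X)).coeff a
              = (β b).coeff 0 * ((-1) ^ a * (β b').coeff a) + (β b).coeff a * (β b').coeff 0 := by
          intro b b' hbb hbJ hbJ'
          rw [coeff_two _ _ a ha]
          · rw [coeff_comp_negX, coeff_comp_negX]; ring
          · intro a1 a2 ha12 ha1 ha2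
            by_contra hne2
            have hA := ih a1 (by omega) ha1 b (left_ne_zero_of_mul hne2)
            have h3 := right_ne_zero_of_mul hne2
            rw [coeff_comp_negX] at h3
            have hB := ih a2 (by omega) ha2 b' (right_ne_zero_of_mul h3)
            omega
        have hz1 : ∀ b b', b + b' = b0 + J → b ≤ J → b' ≤ J → b ≠ b0 → (β b).coeff a = 0 := by
          intro b b' hbb hbJ hbJ' hne3
          by_contra h
          have : b ≤ b0 := by
            by_contra h2
            exact h (hb0max b (by omega))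
          omega
        rw [Finset.sum_eq_add_of_mem b0 J (Finset.mem_range.mpr (by omega))
          (Finset.mem_range.mpr hJp) (by omega)] at h1
        · rw [Finset.sum_eq_single J, Finset.sum_eq_single b0, if_pos rfl, if_pos (by omega),
            hco b0 J rfl hb0J2.le le_rfl, hco J b0 (by omega) le_rfl hb0J2.le, hJa a ha] at h1
          · have h4 : (β b0).coeff a * (β J).coeff 0 * (-1) ^ j *
                (((J.choose j : ℕ) : K) * (-1) ^ J + ((b0.choose j : ℕ) : K) * (-1) ^ (b0 + a))
                = 0 := by
              rw [← h1]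
              ring
            have h6 : ((-1 : K)) ^ j ≠ 0 := pow_ne_zero _ (neg_ne_zero.mpr one_ne_zero)
            exact (mul_eq_zero.mp h4).resolve_left (mul_ne_zero (mul_ne_zero hb0 hJc) h6)
          · intro b' _ hb'
            rw [if_neg (by omega)]
          · intro h; exact absurd (Finset.mem_range.mpr (by omega)) h
          · intro b' _ hb'
            rw [if_neg (by omega)]
          · intro h; exact absurd (Finset.mem_range.mpr (by omega)) h
        · rintro b hb ⟨hbb0, hbJ⟩
          apply Finset.sum_eq_zero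
          intro b' _
          split_ifs with hE2
          · by_cases hbig2 : J < b ∨ J < b'
            · exact hterm0 b b' hbig2 j a
            · push Not at hbig2
              rw [hco b b' hE2 hbig2.1 hbig2.2, hz1 b b' hE2 hbig2.1 hbig2.2 hbb0,
                hz1 b' b (by omega) hbig2.2 hbig2.1 (by omega)]
              ring
          · rfl
      have hneg : ∀ m : ℕ, ((-1 : K)) ^ m ≠ 0 :=
        fun m => pow_ne_zero _ (neg_ne_zero.mpr one_ne_zero)
      have hJb : ((J - b0 : ℕ) : K) ≠ 0 := cast_ne ι (by omega) (by omega)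
      rw [Nat.cast_sub hb0J2.le] at hJb
      by_cases hsm : b0 + J + 1 ≤ p
      · have e0 := hE 0 (by omega) (by omega) (by omega)
        have e1 := hE 1 (by omega) (by omega) (by omega)
        simp only [Nat.choose_zero_right, Nat.choose_one_right, Nat.cast_one, one_mul] at e0 e1
        have : ((J : K) - b0) * (-1) ^ J = 0 := by linear_combination e1 - (b0 : K) * e0
        exact absurd this (mul_ne_zero hJb (hneg _))
      · obtain ⟨j0, hj0⟩ : ∃ j0, j0 = b0 + J - (p - 1) := ⟨_, rfl⟩
        have e0 := hE j0 (by omega) (by omega) (by omega)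
        have e1 := hE (j0 + 1) (by omega) (by omega) (by omega)
        have c1 : ((J.choose (j0 + 1) : ℕ) : K) * ((j0 : K) + 1)
            = ((J.choose j0 : ℕ) : K) * ((J : K) - j0) := by
          have := Nat.choose_succ_right_eq J j0
          have h2 : ((J.choose (j0 + 1) * (j0 + 1) : ℕ) : K) = ((J.choose j0 * (J - j0) : ℕ) : K) := by
            rw [this]
          push_cast [Nat.cast_sub (show j0 ≤ J by omega)] at h2
          exact h2
        have c2 : ((b0.choose (j0 + 1) : ℕ) : K) * ((j0 : K) + 1)
            = ((b0.choose j0 : ℕ) : K) * ((b0 : K) - j0) := by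
          have := Nat.choose_succ_right_eq b0 j0
          have h2 : ((b0.choose (j0 + 1) * (j0 + 1) : ℕ) : K) = ((b0.choose j0 * (b0 - j0) : ℕ) : K) := by
            rw [this]
          push_cast [Nat.cast_sub (show j0 ≤ b0 by omega)] at h2
          exact h2
        have : ((J.choose j0 : ℕ) : K) * (-1) ^ J * ((J : K) - b0) = 0 := by
          linear_combination ((j0 : K) + 1) * e1 - ((b0 : K) - j0) * e0 - (-1) ^ J * c1
            - (-1) ^ (b0 + a) * c2
        exact absurd this (mul_ne_zero (mul_ne_zero (choose_ne ι hJp (by omega)) (hneg _)) hJb)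
  -- 7c
  obtain ⟨b, a, hab, hc⟩ := hT3
  rcases Nat.eq_zero_or_pos a with h1 | h1
  · have : b = D := by omega
    rw [this, h1] at hc
    exact hc hρ
  · have h2 := h7b a h1 b hc
    have h3 : J ≤ D := by
      by_contra h
      exact hJc (hlow J 0 (by omega))
    have h4 : D = J := by omega
    rw [h4] at hρ
    exact hJc hρ

end Pool.Agent.H207.WH
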