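import Pool.Agent.H207.WH.Cls4

/-!
# The case of a rational direction
-/

set_option autoImplicit false

namespace Pool.Agent.H207.WH

open Finset Polynomial

variable {K : Type*} [Field K] {p : ℕ} [Fact p.Prime]

/-- moments in sheared coordinates -/
theorem moment_shear (ι : ZMod p →+* K) (F : ZMod p → ZMod p → K) (hF : Lin F) (r : ZMod p)
    (i l : ℕ) (h : i + l + 2 ≤ p) :
    ∑ z, ∑ y, F (z + r * y) y * ι z ^ i * ι y ^ l = 0 := by
  have h1 : ∑ z : ZMod p, ∑ y : ZMod p, F (z + r * y) y * ι z ^ i * ι y ^ l
      = ∑ x : ZMod p, ∑ y : ZMod p, F x y * (ι x - ι r * ι y) ^ i * ι y ^ l := by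
    rw [Finset.sum_comm]
    conv_rhs => rw [Finset.sum_comm]
    apply Finset.sum_congr rfl
    intro y _
    rw [← Equiv.sum_comp (Equiv.subRight (r * y))]
    apply Finset.sum_congr rfl
    intro x _
    simp only [Equiv.subRight_apply, sub_add_cancel, map_sub, map_mul]
  rw [h1]
  have h2 : ∀ x y : ZMod p, F x y * (ι x - ι r * ι y) ^ i * ι y ^ l
      = ∑ m ∈ range (i + 1), ((-ι r) ^ (i - m) * (i.choose m : K)) *
        (F x y * ι x ^ m * ι y ^ (i - m + l)) := by
    intro x y
    have h2 : ι x - ι r * ι y = ι x + (-ι r) * ι y := by ring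
    rw [h2, add_pow, Finset.mul_sum, Finset.sum_mul]
    apply Finset.sum_congr rfl
    intro m _
    rw [mul_pow, pow_add]
    ring
  simp_rw [h2]
  have h3 : ∀ x : ZMod p, ∑ y : ZMod p, ∑ m ∈ range (i + 1),
      ((-ι r) ^ (i - m) * (i.choose m : K)) * (F x y * ι x ^ m * ι y ^ (i - m + l))
      = ∑ m ∈ range (i + 1), ∑ y : ZMod p, ((-ι r) ^ (i - m) * (i.choose m : K)) *
        (F x y * ι x ^ m * ι y ^ (i - m + l)) := fun x => Finset.sum_comm
  simp_rw [h3]
  rw [Finset.sum_comm]
  apply Finset.sum_eq_zero
  intro m hm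
  rw [Finset.mem_range] at hm
  calc _ = ((-ι r) ^ (i - m) * (i.choose m : K)) * ∑ x, ∑ y,
        (F x y * ι x ^ m * ι y ^ (i - m + l)) := by
        rw [Finset.mul_sum]
        apply Finset.sum_congr rfl; intro x _
        rw [Finset.mul_sum]
    _ = 0 := by rw [moment ι F hF m (i - m + l) (by omega), mul_zero]

/-- one-variable moments -/
noncomputable def mo (ι : ZMod p →+* K) (f : ZMod p → K) (k : ℕ) : K := ∑ x, f x * ι x ^ k

theorem mo_poly (ι : ZMod p →+* K) (f : K[X]) (k : ℕ) (h : k + f.natDegree + 1 ≤ p) :
    mo ι (fun x => f.eval (ι x)) k = if k + f.natDegree + 1 = p then -f.leadingCoeff else 0 := by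
  rw [mo]
  have h1 : ∀ x : ZMod p, f.eval (ι x) * ι x ^ k
      = ∑ a ∈ range (f.natDegree + 1), f.coeff a * ι x ^ (a + k) := by
    intro x
    rw [eval_eq_sum_range, Finset.sum_mul]
    apply Finset.sum_congr rfl
    intro a _
    rw [pow_add]; ring
  simp_rw [h1]
  rw [Finset.sum_comm]
  simp_rw [← Finset.mul_sum]
  rw [Finset.sum_range_succ, Finset.sum_eq_zero, zero_add]
  · split_ifs with h2
    · have : f.natDegree + k = p - 1 := by omega
      rw [this, S_mid, leadingCoeff]; ring
    · rw [S_low ι (by omega), mul_zero]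
  · intro a ha
    rw [Finset.mem_range] at ha
    rw [S_low ι (by omega), mul_zero]

/-- if the autocorrelations of `f` have vanishing moments of order `i` then the first nonzero
moment of `f` has large order -/
theorem auto_moment (ι : ZMod p →+* K) (f : ZMod p → K) (m0 i : ℕ) (hi : i ≤ m0)
    (hlow : ∀ k, k < m0 → mo ι f k = 0) (hm0 : mo ι f m0 ≠ 0)
    (hauto : ∀ c, ∑ x, f x * f (c - x) * ι x ^ i = 0) : p ≤ 2 * m0 - i := by
  by_contra hcon
  push Not at hcon
  have h1 : ∑ c, (∑ x, f x * f (c - x) * ι x ^ i) * ι c ^ (2 * m0 - i) = 0 := by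
    apply Finset.sum_eq_zero
    intro c _
    rw [hauto, zero_mul]
  have h2 : ∑ c, (∑ x, f x * f (c - x) * ι x ^ i) * ι c ^ (2 * m0 - i)
      = ∑ x, f x * ι x ^ i * ∑ c, f c * (ι x + ι c) ^ (2 * m0 - i) := by
    calc _ = ∑ c, ∑ x, f x * ι x ^ i * (f (c - x) * ι c ^ (2 * m0 - i)) := by
          apply Finset.sum_congr rfl; intro c _
          rw [Finset.sum_mul]
          apply Finset.sum_congr rfl; intro x _
          ring
      _ = ∑ x, ∑ c, f x * ι x ^ i * (f (c - x) * ι c ^ (2 * m0 - i)) := Finset.sum_comm
      _ = _ := by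
          apply Finset.sum_congr rfl; intro x _
          rw [Finset.mul_sum, ← Equiv.sum_comp (Equiv.addRight x)]
          apply Finset.sum_congr rfl; intro c _
          simp only [Equiv.coe_addRight, add_sub_cancel_right, map_add]
          rw [add_comm (ι c) (ι x)]
  have h3 : ∀ x : ZMod p, ∑ c, f c * (ι x + ι c) ^ (2 * m0 - i)
      = ∑ r ∈ range (2 * m0 - i + 1), ι x ^ r * ((2 * m0 - i).choose r : K) *
        mo ι f (2 * m0 - i - r) := by
    intro x
    simp_rw [add_pow, Finset.mul_sum]
    rw [Finset.sum_comm]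
    apply Finset.sum_congr rfl
    intro r _
    rw [mo, Finset.mul_sum]
    apply Finset.sum_congr rfl
    intro c _
    ring
  rw [h1] at h2
  simp_rw [h3, Finset.mul_sum] at h2
  rw [Finset.sum_comm] at h2
  have h4 : ∀ r ∈ range (2 * m0 - i + 1), ∑ x : ZMod p, f x * ι x ^ i *
      (ι x ^ r * ((2 * m0 - i).choose r : K) * mo ι f (2 * m0 - i - r))
      = ((2 * m0 - i).choose r : K) * mo ι f (2 * m0 - i - r) * mo ι f (i + r) := by
    intro r _
    rw [mo, mo, Finset.mul_sum]
    apply Finset.sum_congr rfl
    intro x _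
    rw [pow_add]; ring
  rw [Finset.sum_congr rfl h4, Finset.sum_eq_single (m0 - i)] at h2
  · have e1 : 2 * m0 - i - (m0 - i) = m0 := by omega
    have e2 : i + (m0 - i) = m0 := by omega
    rw [e1, e2] at h2
    exact absurd h2.symm (mul_ne_zero (mul_ne_zero (choose_ne ι hcon (by omega)) hm0) hm0)
  · intro r hr hrm
    rw [Finset.mem_range] at hr
    rcases lt_or_gt_of_ne hrm with h | h
    · rw [hlow (i + r) (by omega), mul_zero]
    · rw [hlow (2 * m0 - i - r) (by omega), mul_zero, zero_mul]
  · intro h; exact absurd (Finset.mem_range.mpr (by omega)) h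

/-- the case of a rational direction -/
theorem rat (ι : ZMod p →+* K) (s : ZMod p → ZMod p → K)
    (hs : LinProd s) (κ : K) (hκ : ∀ x y, s x y * s (-x) (-y) = κ) (r : ZMod p) (J0 : ℕ)
    (hJ0 : 2 * J0 + 1 ≤ p) (hmax0 : ∀ b, J0 < b → sh (ι r) (AA ι s) b = 0) :
    ∀ x y, s (x + r) (y + 1) = s x y := by
  classical
  have hp : p.Prime := Fact.out
  have hp2 := hp.two_le
  have hfam : Fam p (sh (ι r) (AA ι s)) := sh_fam (ι r) _ (AA_fam ι s)
  have hsev : ∀ x y : ZMod p, s x y = ev p (sh (ι r) (AA ι s)) (ι x - ι r * ι y) (ι y) := by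
    intro x y
    rw [sh_ev (ι r) _ (AA_fam ι s), sub_add_cancel, AA_ev ι s hs]
  set β := sh (ι r) (AA ι s) with hβ
  have hbig : ∀ b, p ≤ b → β b = 0 := by
    intro b hb
    ext a
    rw [hfam b a (by omega), coeff_zero]
  have hsz : ∀ z y : ZMod p, s (z + r * y) y = ev p β (ι z) (ι y) := by
    intro z y
    rw [hsev]
    congr 1
    rw [map_add, map_mul]; ring
  have hzero : ∀ b, 1 ≤ b → β b = 0 := by
    by_contra hcon
    push Not at hcon
    obtain ⟨b1, hb1, hb10⟩ := hcon
    obtain ⟨J, hJ1, hJβ, hmax⟩ : ∃ J, 1 ≤ J ∧ β J ≠ 0 ∧ ∀ b, J < b → β b = 0 := by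
      have hb1p : b1 ≤ p := by
        by_contra h
        exact hb10 (hbig b1 (by omega))
      refine ⟨Nat.findGreatest (fun b => β b ≠ 0) p, ?_,
        Nat.findGreatest_spec (P := fun b => β b ≠ 0) hb1p hb10, ?_⟩
      · exact hb1.trans (Nat.le_findGreatest (P := fun b => β b ≠ 0) hb1p hb10)
      · intro c hc
        by_cases hcp : c ≤ p
        · have := Nat.findGreatest_is_greatest hc hcp
          push Not at this
          exact this
        · exact hbig c (by omega)
    have hJJ0 : J ≤ J0 := by
      by_contra h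
      exact hJβ (hmax0 J (by omega))
    have hJp : 2 * J + 1 ≤ p := by omega
    have hdegJ := hfam.deg J (by omega)
    set n := (β J).natDegree with hn
    have hevJ : ∀ z y : ZMod p, s (z + r * y) y = ∑ b ∈ range (J + 1), (β b).eval (ι z) * ι y ^ b := by
      intro z y
      rw [hsz, ev]
      symm
      apply Finset.sum_subset
      · intro a ha; rw [Finset.mem_range] at *; omega
      · intro b _ hb
        rw [Finset.mem_range] at hb
        rw [hmax b (by omega), eval_zero, zero_mul]
    -- the autocorrelations of the top coefficient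
    have hauto : ∀ i, i + 1 ≤ 2 * J → ∀ c : ZMod p,
        ∑ x, (β J).eval (ι x) * (β J).eval (ι (c - x)) * ι x ^ i = 0 := by
      intro i hi c
      obtain ⟨l, hl⟩ : ∃ l, l = p - 1 - 2 * J := ⟨_, rfl⟩
      have h1 := moment_shear ι _ (hs c 0) r i l (by omega)
      have h2 : ∀ z y : ZMod p, s (z + r * y) y * s (c - (z + r * y)) (0 - y) * ι z ^ i * ι y ^ l
          = ∑ b ∈ range (J + 1), ∑ b' ∈ range (J + 1),
            ((β b).eval (ι z) * (β b').eval (ι (c - z)) * (-1) ^ b' * ι z ^ i) *
              ι y ^ (l + b + b') := by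
        intro z y
        have e1 : s (c - (z + r * y)) (0 - y) = s ((c - z) + r * (-y)) (-y) := by
          congr 1 <;> ring
        rw [e1, hevJ, hevJ, Finset.sum_mul_sum, Finset.sum_mul, Finset.sum_mul]
        apply Finset.sum_congr rfl
        intro b _
        rw [Finset.sum_mul, Finset.sum_mul]
        apply Finset.sum_congr rfl
        intro b' _
        rw [map_neg, neg_pow (ι y) b', pow_add, pow_add]
        ring
      simp_rw [h2] at h1
      have h3 : ∀ z : ZMod p, ∑ y : ZMod p, ∑ b ∈ range (J + 1), ∑ b' ∈ range (J + 1),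
            ((β b).eval (ι z) * (β b').eval (ι (c - z)) * (-1) ^ b' * ι z ^ i) *
              ι y ^ (l + b + b')
          = ((β J).eval (ι z) * (β J).eval (ι (c - z)) * ι z ^ i) * (-(-1) ^ J) := by
        intro z
        calc _ = ∑ b ∈ range (J + 1), ∑ b' ∈ range (J + 1),
            ((β b).eval (ι z) * (β b').eval (ι (c - z)) * (-1) ^ b' * ι z ^ i) *
              ∑ y : ZMod p, ι y ^ (l + b + b') := by
              rw [Finset.sum_comm]
              apply Finset.sum_congr rfl; intro b _
              rw [Finset.sum_comm]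
              apply Finset.sum_congr rfl; intro b' _
              rw [Finset.mul_sum]
          _ = ∑ b' ∈ range (J + 1),
            ((β J).eval (ι z) * (β b').eval (ι (c - z)) * (-1) ^ b' * ι z ^ i) *
              ∑ y : ZMod p, ι y ^ (l + J + b') := by
              apply Finset.sum_eq_single J
              · intro b hb hbJ
                rw [Finset.mem_range] at hb
                apply Finset.sum_eq_zero
                intro b' hb'
                rw [Finset.mem_range] at hb'
                rw [S_low ι (by omega), mul_zero]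
              · intro h; exact absurd (Finset.mem_range.mpr (by omega)) h
          _ = ((β J).eval (ι z) * (β J).eval (ι (c - z)) * (-1) ^ J * ι z ^ i) *
              ∑ y : ZMod p, ι y ^ (l + J + J) := by
              apply Finset.sum_eq_single J
              · intro b hb hbJ
                rw [Finset.mem_range] at hb
                rw [S_low ι (by omega), mul_zero]
              · intro h; exact absurd (Finset.mem_range.mpr (by omega)) h
          _ = _ := by
              have : l + J + J = p - 1 := by omega
              rw [this, S_mid]; ring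
      simp_rw [h3] at h1
      rw [← Finset.sum_mul] at h1
      exact (mul_eq_zero.mp h1).resolve_right
        (neg_ne_zero.mpr (pow_ne_zero _ (neg_ne_zero.mpr one_ne_zero)))
    -- the degree bound
    have hlc : (β J).leadingCoeff ≠ 0 := leadingCoeff_ne_zero.mpr hJβ
    obtain ⟨m0, hm0⟩ : ∃ m0, m0 = p - 1 - n := ⟨_, rfl⟩
    have hlow : ∀ k, k < m0 → mo ι (fun x => (β J).eval (ι x)) k = 0 := by
      intro k hk
      rw [mo_poly ι _ k (by omega), if_neg (by omega)]
    have hne : mo ι (fun x => (β J).eval (ι x)) m0 ≠ 0 := by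
      rw [mo_poly ι _ m0 (by omega), if_pos (by omega)]
      exact neg_ne_zero.mpr hlc
    have hdeg : 2 * n + 2 * J + 1 ≤ p := by
      by_cases hc : 2 * J - 1 ≤ m0
      · have := auto_moment ι _ m0 (2 * J - 1) hc hlow hne (hauto _ (by omega))
        omega
      · have := auto_moment ι _ m0 m0 le_rfl hlow hne (hauto _ (by omega))
        omega
    -- the values at opposite points
    have hopp : ∀ x : ZMod p, (β J).eval (ι x) * (β J).eval (-ι x) = 0 := by
      intro x
      obtain ⟨q, hq⟩ : ∃ q : ZMod p → K[X],
          ∀ z, q z = ∑ b ∈ range (J + 1), C ((β b).eval (ι z)) * X ^ b := ⟨_, fun z => rfl⟩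
      have hqe : ∀ z y : ZMod p, (q z).eval (ι y) = s (z + r * y) y := by
        intro z y
        rw [hq, hevJ, eval_finsetSum]
        apply Finset.sum_congr rfl
        intro b _
        simp
      have hqd : ∀ z, (q z).natDegree ≤ J := by
        intro z
        rw [hq]
        apply natDegree_sum_le_of_forall_le
        intro b hb
        rw [Finset.mem_range] at hb
        exact (natDegree_C_mul_X_pow_le _ _).trans (by omega)
      have hqc : ∀ z, (q z).coeff J = (β J).eval (ι z) := by
        intro z
        rw [hq, finsetSum_coeff]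
        simp_rw [coeff_C_mul_X_pow]
        rw [Finset.sum_eq_single J, if_pos rfl]
        · intro b _ hb; rw [if_neg (fun h => hb h.symm)]
        · intro h; exact absurd (Finset.mem_range.mpr (by omega)) h
      have hcd : ((q (-x)).comp (-X)).natDegree ≤ J := (natDegree_comp_negX _).trans (hqd _)
      have h1 : q x * (q (-x)).comp (-X) - C κ = 0 := by
        apply poly_zero ι
        · have h2 : (q x * (q (-x)).comp (-X) - C κ).natDegree ≤ J + J := by
            refine (natDegree_sub_le _ _).trans ?_
            rw [natDegree_C]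
            apply max_le _ (Nat.zero_le _)
            refine natDegree_mul_le.trans ?_
            have := hqd x
            omega
          omega
        · intro y
          simp only [eval_sub, eval_mul, eval_comp, eval_neg, eval_X, eval_C]
          have h2 : -ι y = ι (-y) := by rw [map_neg]
          rw [h2, hqe, hqe]
          have h3 : -x + r * -y = -(x + r * y) := by ring
          rw [h3, hκ, sub_self]
      have h2 : (q x * (q (-x)).comp (-X)).coeff (J + J) = 0 := by
        rw [sub_eq_zero.mp h1, coeff_C, if_neg (by omega)]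
      rw [coeff_mul_add_eq_of_natDegree_le (hqd x) hcd, coeff_comp_negX, hqc, hqc] at h2
      rw [map_neg] at h2
      have h3 : (-1 : K) ^ J * ((β J).eval (ι x) * (β J).eval (-ι x)) = 0 := by
        rw [← h2]; ring
      exact (mul_eq_zero.mp h3).resolve_left (pow_ne_zero _ (neg_ne_zero.mpr one_ne_zero))
    have hfin : β J * (β J).comp (-X) = 0 := by
      apply poly_zero ι
      · refine lt_of_le_of_lt natDegree_mul_le ?_
        have := natDegree_comp_negX (β J)
        omega
      · intro a
        simp only [eval_mul, eval_comp, eval_neg, eval_X]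
        exact hopp a
    exact (mul_ne_zero hJβ (comp_negX_ne _ hJβ)) hfin
  have hval : ∀ z y : ZMod p, s (z + r * y) y = (β 0).eval (ι z) := by
    intro z y
    rw [hsz, ev, Finset.sum_eq_single 0]
    · simp
    · intro b _ hb
      rw [hzero b (Nat.one_le_iff_ne_zero.mpr hb), eval_zero, zero_mul]
    · intro h; exact absurd (Finset.mem_range.mpr (by omega)) h
  intro x y
  have e1 : x + r = (x - r * y) + r * (y + 1) := by ring
  have e2 : s x y = s ((x - r * y) + r * y) y := by congr 1; ring
  rw [e1, hval, e2, hval]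

end Pool.Agent.H207.WH
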