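import Pool.Agent.H207.WH.Cls5

/-!
# The classification theorem
-/

set_option autoImplicit false

namespace Pool.Agent.H207.WH

open Finset Polynomial

variable {K : Type*} [Field K] {p : ℕ} [Fact p.Prime]

theorem cof_swap (ι : ZMod p →+* K) (s : ZMod p → ZMod p → K) (a b : ℕ) :
    cof ι (fun x y => s y x) a b = cof ι s b a := by
  rw [cof, cof, Finset.sum_comm]
  apply Finset.sum_congr rfl; intro x _
  apply Finset.sum_congr rfl; intro y _
  ring

theorem LinProd.swap {s : ZMod p → ZMod p → K} (hs : LinProd s) :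
    LinProd (fun x y => s y x) := by
  intro c d x0 y0 v w
  exact hs d c y0 x0 w v

/-- the value of the top form in the direction `ρ` -/
theorem top_eval (ι : ZMod p →+* K) (s : ZMod p → ZMod p → K) (D : ℕ) (ρ : K) :
    (sh ρ (AA ι s) D).coeff 0
      = (∑ r ∈ range (D + 1), C ((AA ι s (D - r)).coeff r) * X ^ r : K[X]).eval ρ := by
  rw [sh_coeff, eval_finsetSum, ← Finset.sum_range_reflect]
  apply Finset.sum_congr rfl
  intro k hk
  rw [Finset.mem_range] at hk
  have e1 : D - (D + 1 - 1 - k) = k := by omega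
  have e2 : D + 1 - 1 - k = D - k := by omega
  rw [e1, e2, Nat.zero_add, Nat.choose_self]
  simp only [eval_mul, eval_C, eval_pow, eval_X]
  push_cast
  ring

/-- **Classification.** -/
theorem cls_alg [IsAlgClosed K] (ι : ZMod p →+* K) (hp2 : p ≠ 2) (s : ZMod p → ZMod p → K)
    (hs : LinProd s) (κ : K) (hκ : ∀ x y, s x y * s (-x) (-y) = κ) :
    ∃ v w : ZMod p, (v ≠ 0 ∨ w ≠ 0) ∧ ∀ x y, s (x + v) (y + w) = s x y := by
  classical
  have hp : p.Prime := Fact.out
  have hfam := AA_fam ι s
  -- a direction for which the top form vanishes gives the claim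
  have key : ∀ (s' : ZMod p → ZMod p → K), LinProd s' → (∀ x y, s' x y * s' (-x) (-y) = κ) →
      ∀ (D : ℕ) (ρ : K), (∀ b a, D + 1 ≤ a + b → (AA ι s' b).coeff a = 0) →
      (∃ b a, a + b = D ∧ (AA ι s' b).coeff a ≠ 0) → (sh ρ (AA ι s') D).coeff 0 = 0 →
      ∃ v w : ZMod p, (v ≠ 0 ∨ w ≠ 0) ∧ ∀ x y, s' (x + v) (y + w) = s' x y := by
    intro s' hs' hκ' D ρ h1 h2 h3
    obtain ⟨J, hJ, hmax⟩ := low ι hp2 s' hs' ρ D h1 h2 h3
    by_cases hρ : ∃ r, ι r = ρ
    · obtain ⟨r, rfl⟩ := hρ
      exact ⟨r, 1, Or.inr one_ne_zero, rat ι s' hs' κ hκ' r J hJ hmax⟩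
    · push Not at hρ
      exact ⟨1, 0, Or.inl one_ne_zero, fun x y => irr ι s' hs' κ hκ' ρ J hJ hmax hρ _ _ _ _⟩
  -- the total degree
  by_cases hall : ∃ b a, (AA ι s b).coeff a ≠ 0
  · obtain ⟨D, hDtop, hDne⟩ : ∃ D, (∀ b a, D + 1 ≤ a + b → (AA ι s b).coeff a = 0) ∧
        ∃ b a, a + b = D ∧ (AA ι s b).coeff a ≠ 0 := by
      obtain ⟨b1, a1, h1⟩ := hall
      have hP : ∃ b a, a + b = a1 + b1 ∧ (AA ι s b).coeff a ≠ 0 := ⟨b1, a1, rfl, h1⟩
      have hle : a1 + b1 ≤ p := by
        by_contra h
        exact h1 (hfam b1 a1 (by omega))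
      refine ⟨Nat.findGreatest (fun D => ∃ b a, a + b = D ∧ (AA ι s b).coeff a ≠ 0) p, ?_,
        Nat.findGreatest_spec (P := fun D => ∃ b a, a + b = D ∧ (AA ι s b).coeff a ≠ 0) hle hP⟩
      intro b a hab
      by_contra h
      by_cases hbp : a + b ≤ p
      · exact Nat.findGreatest_is_greatest
          (P := fun D => ∃ b a, a + b = D ∧ (AA ι s b).coeff a ≠ 0) (by omega) hbp ⟨b, a, rfl, h⟩
      · exact h (hfam b a (by omega))
    by_cases hD : D = 0
    · -- constant
      refine ⟨1, 0, Or.inl one_ne_zero, ?_⟩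
      have hc : ∀ x y, s x y = (AA ι s 0).coeff 0 := by
        intro x y
        rw [← AA_ev ι s hs x y, ev, Finset.sum_eq_single 0]
        · have : AA ι s 0 = C ((AA ι s 0).coeff 0) := by
            apply eq_C_of_natDegree_eq_zero
            by_contra h
            have h1 := hDtop 0 (AA ι s 0).natDegree (by omega)
            rw [coeff_natDegree, leadingCoeff_eq_zero] at h1
            rw [h1, natDegree_zero] at h
            exact h rfl
          rw [this]
          simp
        · intro b _ hb
          have : AA ι s b = 0 := by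
            ext a
            rw [hDtop b a (by omega), coeff_zero]
          rw [this, eval_zero, zero_mul]
        · intro h; exact absurd (Finset.mem_range.mpr hp.pos) h
      intro x y
      rw [hc, hc]
    · by_cases hroot : ∃ ρ, (sh ρ (AA ι s) D).coeff 0 = 0
      · obtain ⟨ρ, hρ⟩ := hroot
        exact key s hs hκ D ρ hDtop hDne hρ
      · push Not at hroot
        -- swap the coordinates
        have hP0 : (∑ r ∈ range (D + 1), C ((AA ι s (D - r)).coeff r) * X ^ r : K[X]).degree = 0 := by
          by_contra h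
          obtain ⟨ρ, hρ⟩ := IsAlgClosed.exists_root _ h
          apply hroot ρ
          rw [top_eval]
          exact hρ
        have h0 : (AA ι s 0).coeff D = 0 := by
          have h1 : (∑ r ∈ range (D + 1), C ((AA ι s (D - r)).coeff r) * X ^ r : K[X]).coeff D
              = (AA ι s 0).coeff D := by
            rw [finsetSum_coeff]
            simp_rw [coeff_C_mul_X_pow]
            rw [Finset.sum_eq_single D, if_pos rfl, Nat.sub_self]
            · intro b _ hb; rw [if_neg (fun h => hb h.symm)]
            · intro h; exact absurd (Finset.mem_range.mpr (by omega)) h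
          rw [← h1]
          apply coeff_eq_zero_of_degree_lt
          rw [hP0]
          exact_mod_cast Nat.pos_of_ne_zero hD
        have hsw : ∀ a b, (AA ι (fun x y => s y x) b).coeff a = (AA ι s a).coeff b := by
          intro a b
          rw [AA_coeff, AA_coeff, cof_swap, add_comm]
        obtain ⟨b1, a1, hab1, hne1⟩ := hDne
        obtain ⟨v, w, hvw, hinv⟩ := key (fun x y => s y x) hs.swap (fun x y => hκ y x) D 0
          (fun b a hab => by rw [hsw]; exact hDtop a b (by omega))
          ⟨a1, b1, by omega, by rw [hsw]; exact hne1⟩ (by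
            rw [sh_coeff, Finset.sum_eq_single D]
            · rw [Nat.sub_self, Nat.add_zero, hsw, h0, mul_zero, mul_zero]
            · intro k hk hkD
              rw [Finset.mem_range] at hk
              rw [zero_pow (by omega), zero_mul]
            · intro h; exact absurd (Finset.mem_range.mpr (by omega)) h)
        exact ⟨w, v, hvw.symm, fun x y => hinv y x⟩
  · push Not at hall
    refine ⟨1, 0, Or.inl one_ne_zero, ?_⟩
    have hc : ∀ x y, s x y = 0 := by
      intro x y
      rw [← AA_ev ι s hs x y, ev]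
      apply Finset.sum_eq_zero
      intro b _
      have : AA ι s b = 0 := by
        ext a
        rw [hall b a, coeff_zero]
      rw [this, eval_zero, zero_mul]
    intro x y
    rw [hc, hc]

/-- **Classification.**  Let `K` be a field of odd characteristic `p` and `s : F_p × F_p → K` a
function all of whose products `h ↦ s(h) s(g - h)` have equal sums over parallel lines and for
which `s(h) s(-h)` is constant.  Then `s` is invariant under a nonzero translation. -/
theorem cls (ι : ZMod p →+* K) (hp2 : p ≠ 2) (s : ZMod p → ZMod p → K)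
    (hs : LinProd s) (κ : K) (hκ : ∀ x y, s x y * s (-x) (-y) = κ) :
    ∃ v w : ZMod p, (v ≠ 0 ∨ w ≠ 0) ∧ ∀ x y, s (x + v) (y + w) = s x y := by
  obtain ⟨v, w, hvw, h⟩ := cls_alg ((algebraMap K (AlgebraicClosure K)).comp ι) hp2
    (fun x y => algebraMap K (AlgebraicClosure K) (s x y)) (by
      intro c d x0 y0 v w
      simp only [← map_mul, ← map_sum]
      rw [hs c d x0 y0 v w]) (algebraMap K (AlgebraicClosure K) κ) (by
      intro x y
      rw [← map_mul, hκ])
  exact ⟨v, w, hvw, fun x y => (algebraMap K (AlgebraicClosure K)).injective (h x y)⟩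

end Pool.Agent.H207.WH
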