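import Pool.Agent.H207.WH.Tao

/-!
# Symmetric fiducials: the overlaps are congruent to one
-/

set_option autoImplicit false

namespace Pool.Agent.H207.WH

open Finset Polynomial

section inv

variable {p : ℕ} [Fact p.Prime]

theorem inv_mul {K : Type*} (s : ZMod p × ZMod p → K) (v : ZMod p × ZMod p)
    (h : ∀ g, s (g + v) = s g) (j : ZMod p) (g : ZMod p × ZMod p) : s (g + j • v) = s g := by
  have h1 : ∀ n : ℕ, ∀ g, s (g + (n : ZMod p) • v) = s g := by
    intro n
    induction n with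
    | zero => intro g; simp
    | succ n ih =>
      intro g
      have : g + ((n + 1 : ℕ) : ZMod p) • v = (g + (n : ZMod p) • v) + v := by
        push_cast
        rw [add_smul, one_smul, add_assoc]
      rw [this, h, ih]
  have h2 := h1 j.val g
  rwa [ZMod.natCast_zmod_val] at h2

/-- a function invariant under a nonzero vector and an invertible linear map of which it is no
eigenvector is constant -/
theorem inv_const {K : Type*} (s : ZMod p × ZMod p → K) (v : ZMod p × ZMod p) (hv : v ≠ 0)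
    (h : ∀ g, s (g + v) = s g) (M : (ZMod p × ZMod p) ≃ₗ[ZMod p] (ZMod p × ZMod p))
    (hM : ∀ c : ZMod p, M v ≠ c • v) (hs : ∀ g, s (M g) = s g)
    (g : ZMod p × ZMod p) : s g = s 0 := by
  have hw : ∀ g, s (g + M v) = s g := by
    intro g
    obtain ⟨g', rfl⟩ := M.surjective g
    rw [← map_add, hs, h, hs]
  obtain ⟨v1, v2⟩ := v
  obtain ⟨⟨w1, w2⟩, hMv⟩ : ∃ w : ZMod p × ZMod p, M (v1, v2) = w := ⟨_, rfl⟩
  rw [hMv] at hw
  have hdet : v1 * w2 - v2 * w1 ≠ 0 := by
    intro hdet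
    by_cases h1 : v1 = 0
    · have h2 : v2 ≠ 0 := by
        intro h2
        apply hv
        rw [h1, h2]; rfl
      apply hM (w2 / v2)
      rw [hMv]
      apply Prod.ext
      · show w1 = w2 / v2 * v1
        field_simp
        linear_combination -hdet
      · show w2 = w2 / v2 * v2
        field_simp
    · apply hM (w1 / v1)
      rw [hMv]
      apply Prod.ext
      · show w1 = w1 / v1 * v1
        field_simp
      · show w2 = w1 / v1 * v2
        field_simp
        linear_combination hdet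
  have hg : g = 0 + ((g.1 * w2 - g.2 * w1) / (v1 * w2 - v2 * w1)) • ((v1, v2) : ZMod p × ZMod p)
      + ((v1 * g.2 - v2 * g.1) / (v1 * w2 - v2 * w1)) • ((w1, w2) : ZMod p × ZMod p) := by
    apply Prod.ext
    · show g.1 = 0 + (g.1 * w2 - g.2 * w1) / (v1 * w2 - v2 * w1) * v1
        + (v1 * g.2 - v2 * g.1) / (v1 * w2 - v2 * w1) * w1
      rw [zero_add, div_mul_eq_mul_div, div_mul_eq_mul_div, ← add_div, eq_div_iff hdet]
      ring
    · show g.2 = 0 + (g.1 * w2 - g.2 * w1) / (v1 * w2 - v2 * w1) * v2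
        + (v1 * g.2 - v2 * g.1) / (v1 * w2 - v2 * w1) * w2
      rw [zero_add, div_mul_eq_mul_div, div_mul_eq_mul_div, ← add_div, eq_div_iff hdet]
      ring
  rw [hg, inv_mul s _ hw, inv_mul s _ h]

end inv

section cong

variable {L : Type*} [Field L] [CharZero L] (B : ValuationSubring L) {p : ℕ} [Fact p.Prime]

theorem root_mem {c : L} (hc : c ^ p = 1) : c ∈ B := by
  have hp : p.Prime := Fact.out
  have h1 : B.valuation c ^ p = 1 := by rw [← map_pow, hc, map_one]
  rw [← B.valuation_le_one_iff]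
  by_contra h
  push Not at h
  exact absurd h1 (one_lt_pow₀ h hp.ne_zero).ne'

theorem rs_root (hB : (p : L) ∈ B.nonunits) {c : L} (hc : c ^ p = 1) : rs B c = 1 := by
  have hp : p.Prime := Fact.out
  have := char_res B hB
  have h1 : (rs B c - 1) ^ p = 0 := by
    rw [sub_pow_char, one_pow, ← rs_pow B (root_mem B hc), hc, rs_one, sub_self]
  exact sub_eq_zero.mp (pow_eq_zero_iff hp.ne_zero |>.mp h1)

/-- **Congruence.** -/
theorem cong (hp2 : p ≠ 2) (hB : (p : L) ∈ B.nonunits) {χ : AddChar (ZMod p) L}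
    (hχ : χ.IsPrimitive) {w u : ZMod p → L} (hS : Sic χ w u)
    (hM : ∀ v : ZMod p × ZMod p, v ≠ 0 → ∃ M : (ZMod p × ZMod p) ≃ₗ[ZMod p] (ZMod p × ZMod p),
      (∀ g, ∃ c : L, c ^ p = 1 ∧ ov χ w u (M g).1 (M g).2 = c * ov χ w u g.1 g.2) ∧
      ∀ c : ZMod p, M v ≠ c • v) (a b : ZMod p) :
    ov χ w u a b ∈ B ∧ rs B (ov χ w u a b) = 1 := by
  obtain ⟨x0, y0, hA0, hmem, v, v', hvv, hinv⟩ := red B hp2 hB hχ hS
  set A0 := ov χ w u x0 y0 with hA0d
  have hv0 : ((v, v') : ZMod p × ZMod p) ≠ 0 := by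
    intro h
    have h1 : v = 0 := congrArg Prod.fst h
    have h2 : v' = 0 := congrArg Prod.snd h
    rcases hvv with h3 | h3
    · exact h3 h1
    · exact h3 h2
  have hconst : ∀ g : ZMod p × ZMod p, rs B (ov χ w u g.1 g.2 / A0) = rs B (ov χ w u 0 0 / A0) := by
    obtain ⟨M, hsym, hMv⟩ := hM (v, v') hv0
    apply inv_const (fun g : ZMod p × ZMod p => rs B (ov χ w u g.1 g.2 / A0)) (v, v') hv0
      (fun g => hinv g.1 g.2) M hMv
    intro g
    obtain ⟨c, hc, hj⟩ := hsym g
    show rs B (ov χ w u (M g).1 (M g).2 / A0) = rs B (ov χ w u g.1 g.2 / A0)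
    rw [hj, mul_div_assoc, rs_mul B (root_mem B hc) (hmem _ _), rs_root B hB hc, one_mul]
  have h1 := hconst (x0, y0)
  rw [hS.zero, one_div] at h1
  simp only [← hA0d] at h1
  rw [div_self hA0, rs_one] at h1
  have hAi : A0⁻¹ ∈ B := by
    have := hmem 0 0
    rwa [hS.zero, one_div] at this
  have hval : B.valuation A0⁻¹ = 1 := by
    rw [← rs_ne_zero_val B hAi, ← h1]
    exact one_ne_zero
  have hval2 : B.valuation A0 = 1 := by
    rw [map_inv₀] at hval
    exact inv_eq_one.mp hval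
  have hAm : A0 ∈ B := mem_of_val B hval2
  have hrA : rs B A0 = 1 := by
    have := rs_inv B hval2
    rw [← h1] at this
    exact inv_eq_one.mp this.symm
  have hab : ov χ w u a b = ov χ w u a b / A0 * A0 := by
    rw [div_mul_cancel₀ _ hA0]
  have h2 := hconst (a, b)
  simp only at h2
  rw [hS.zero, one_div, ← h1] at h2
  refine ⟨?_, ?_⟩
  · rw [hab]
    exact B.mul_mem _ _ (hmem a b) hAm
  · rw [hab, rs_mul B (hmem a b) hAm, h2, hrA, one_mul]

/-- an element of all valuation rings over `p` is integral after multiplication by a natural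
number prime to `p` -/
theorem int_of_places {L : Type*} [Field L] [CharZero L] (p : ℕ) [Fact p.Prime] (x : L)
    (h : ∀ B : ValuationSubring L, (p : L) ∈ B.nonunits → x ∈ B) :
    ∃ n : ℕ, ¬ p ∣ n ∧ IsIntegral ℤ ((n : L) * x) := by
  have hp : p.Prime := Fact.out
  by_cases hx : x = 0
  · refine ⟨1, fun h => hp.one_lt.ne' (Nat.dvd_one.mp h), ?_⟩
    rw [hx, mul_zero]
    exact isIntegral_zero
  set A : Subring L := (Algebra.adjoin ℤ {x⁻¹}).toSubring with hA
  have hxA : x⁻¹ ∈ A := Algebra.subset_adjoin (Set.mem_singleton _)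
  have hpA : (p : L) ∈ A := natCast_mem A p
  by_cases hI : Ideal.span {(⟨(p : L), hpA⟩ : A), (⟨x⁻¹, hxA⟩ : A)} = ⊤
  · have h1 : (1 : A) ∈ Ideal.span {(⟨(p : L), hpA⟩ : A), (⟨x⁻¹, hxA⟩ : A)} := by
      rw [hI]; trivial
    rw [Ideal.mem_span_pair] at h1
    obtain ⟨⟨a, ha⟩, ⟨b, hb⟩, hab⟩ := h1
    have hab' : a * (p : L) + b * x⁻¹ = 1 := congrArg Subtype.val hab
    have ha' : a ∈ Algebra.adjoin ℤ {x⁻¹} := ha
    have hb' : b ∈ Algebra.adjoin ℤ {x⁻¹} := hb
    rw [Algebra.adjoin_singleton_eq_range_aeval] at ha' hb'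
    obtain ⟨f, hf⟩ := ha'
    obtain ⟨g, hg⟩ := hb'
    have hf' : aeval x⁻¹ f = a := hf
    have hg' : aeval x⁻¹ g = b := hg
    obtain ⟨q, hq⟩ : ∃ q : ℤ[X], q = 1 - C (p : ℤ) * f - X * g := ⟨_, rfl⟩
    have hq0 : q.coeff 0 = 1 - (p : ℤ) * f.coeff 0 := by
      rw [hq]
      simp
    have hqne : q.coeff 0 ≠ 0 := by
      intro h0
      rw [hq0] at h0
      have h5 : (p : ℤ) ∣ 1 := ⟨f.coeff 0, by linarith⟩
      have h6 : (p : ℤ) ≤ 1 := Int.le_of_dvd one_pos h5
      have := hp.two_le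
      omega
    have hqx : aeval x⁻¹ q = 0 := by
      rw [hq]
      simp only [map_sub, map_one, map_mul, aeval_C, aeval_X, hf', hg']
      have : (algebraMap ℤ L) (p : ℤ) = (p : L) := by simp
      rw [this]
      linear_combination -hab'
    have hrev : aeval x q.reverse = 0 := by
      have hinv : Invertible x⁻¹ := invertibleOfNonzero (inv_ne_zero hx)
      have h2 := (eval₂_reverse_eq_zero_iff (algebraMap ℤ L) x⁻¹ q).mpr hqx
      rw [invOf_eq_inv, inv_inv] at h2
      exact h2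
    have h3 := isIntegral_leadingCoeff_smul q.reverse x hrev
    rw [reverse_leadingCoeff, trailingCoeff, natTrailingDegree_eq_zero_of_constantCoeff_ne_zero
      (by rwa [constantCoeff_apply])] at h3
    refine ⟨(q.coeff 0).natAbs, ?_, ?_⟩
    · intro hd
      have h4 : (p : ℤ) ∣ q.coeff 0 := Int.natCast_dvd.mpr hd
      rw [hq0] at h4
      have h5 : (p : ℤ) ∣ 1 := by
        have := dvd_add h4 (Dvd.intro (f.coeff 0) rfl : (p : ℤ) ∣ (p : ℤ) * f.coeff 0)
        rwa [sub_add_cancel] at this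
      have h6 : (p : ℤ) ≤ 1 := Int.le_of_dvd one_pos h5
      have := hp.two_le
      omega
    · rcases Int.natAbs_eq (q.coeff 0) with h4 | h4
      · have h5 : (((q.coeff 0).natAbs : ℕ) : L) * x = q.coeff 0 • x := by
          rw [zsmul_eq_mul, ← Int.cast_natCast (R := L)]
          exact congrArg (fun z : ℤ => (z : L) * x) h4.symm
        rw [h5]; exact h3
      · have h5 : (((q.coeff 0).natAbs : ℕ) : L) * x = -(q.coeff 0 • x) := by
          rw [zsmul_eq_mul, ← Int.cast_natCast (R := L), ← neg_mul, ← Int.cast_neg]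
          exact congrArg (fun z : ℤ => (z : L) * x) (by omega)
        rw [h5]; exact h3.neg
  · exfalso
    obtain ⟨B, hAB, hB⟩ := Ideal.image_subset_nonunits_valuationSubring _ hI
    have h1 : (p : L) ∈ B.nonunits :=
      hB ⟨⟨(p : L), hpA⟩, Ideal.subset_span (by simp), rfl⟩
    have h2 : x⁻¹ ∈ B.nonunits :=
      hB ⟨⟨x⁻¹, hxA⟩, Ideal.subset_span (by simp), rfl⟩
    rw [ValuationSubring.inv_mem_nonunits_iff] at h2
    rcases h2 with h2 | h2
    · exact hx h2
    · exact h2 (h B h1)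

end cong

end Pool.Agent.H207.WH
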