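import Pool.Agent.H207.WH.Unc

/-!
# The squared moduli of the Weyl–Heisenberg overlaps are self-dual
-/

set_option autoImplicit false

namespace Pool.Agent.H207.WH

open Finset ComplexConjugate

section general

variable {N : ℕ} [NeZero N]

/-- the overlap `⟨ψ, D ψ⟩` -/
noncomputable def ovl (ψ : ZMod N → ℂ) (a b : ZMod N) : ℂ :=
  ∑ k, conj (ψ k) * ZMod.stdAddChar (b * k) * ψ (k + a)

/-- its squared modulus, as a complex number -/
noncomputable def ovl2 (ψ : ZMod N → ℂ) (a b : ZMod N) : ℂ := ovl ψ a b * conj (ovl ψ a b)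

/-- self-duality under the symplectic Fourier transform -/
def SD (F : ZMod N → ZMod N → ℂ) : Prop :=
  ∀ a b, (N : ℂ) * F a b = ∑ c, ∑ d, ZMod.stdAddChar (a * d - b * c) * F c d

theorem sum_char (a : ZMod N) :
    ∑ x : ZMod N, (ZMod.stdAddChar (x * a) : ℂ) = if a = 0 then (N : ℂ) else 0 := by
  have h := AddChar.sum_mulShift a (ZMod.isPrimitive_stdAddChar N)
  rw [h, ZMod.card]
  split_ifs <;> simp

theorem ovl2_eq (ψ : ZMod N → ℂ) (a b : ZMod N) :
    ovl2 ψ a b = ∑ k, ∑ c, ZMod.stdAddChar (-(b * c)) *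
      (conj (ψ k) * ψ (k + a) * ψ (k + c) * conj (ψ (k + c + a))) := by
  rw [ovl2, ovl, map_sum, Finset.sum_mul_sum]
  apply Finset.sum_congr rfl
  intro k _
  rw [← Equiv.sum_comp (Equiv.addLeft k)]
  apply Finset.sum_congr rfl
  intro c _
  simp only [Equiv.coe_addLeft, map_mul, Complex.conj_conj]
  rw [← AddChar.map_neg_eq_conj]
  have h1 : (ZMod.stdAddChar (-(b * c)) : ℂ)
      = ZMod.stdAddChar (b * k) * ZMod.stdAddChar (-(b * (k + c))) := by
    rw [← AddChar.map_add_eq_mul]; congr 1; ring
  rw [h1]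
  ring

theorem ovl2_SD (ψ : ZMod N → ℂ) : SD (ovl2 ψ) := by
  classical
  intro a b
  have h1 : ∀ c d : ZMod N, ovl2 ψ c d = ∑ k, ∑ l, ZMod.stdAddChar (d * (k - l)) *
      (conj (ψ k) * ψ (k + c) * ψ l * conj (ψ (l + c))) := by
    intro c d
    rw [ovl2, ovl, map_sum, Finset.sum_mul_sum]
    apply Finset.sum_congr rfl
    intro k _
    apply Finset.sum_congr rfl
    intro l _
    simp only [map_mul, Complex.conj_conj]
    rw [← AddChar.map_neg_eq_conj]
    have h2 : (ZMod.stdAddChar (d * (k - l)) : ℂ)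
        = ZMod.stdAddChar (d * k) * ZMod.stdAddChar (-(d * l)) := by
      rw [← AddChar.map_add_eq_mul]; congr 1; ring
    rw [h2]
    ring
  have h3 : ∀ c : ZMod N, ∑ d, ZMod.stdAddChar (a * d - b * c) * ovl2 ψ c d
      = (N : ℂ) * ∑ k, ZMod.stdAddChar (-(b * c)) *
        (conj (ψ k) * ψ (k + c) * ψ (k + a) * conj (ψ (k + a + c))) := by
    intro c
    calc ∑ d, ZMod.stdAddChar (a * d - b * c) * ovl2 ψ c d
        = ∑ d, ∑ k, ∑ l, (ZMod.stdAddChar (-(b * c)) *
          (conj (ψ k) * ψ (k + c) * ψ l * conj (ψ (l + c)))) *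
            ZMod.stdAddChar (d * (k - l + a)) := by
          apply Finset.sum_congr rfl
          intro d _
          rw [h1, Finset.mul_sum]
          apply Finset.sum_congr rfl
          intro k _
          rw [Finset.mul_sum]
          apply Finset.sum_congr rfl
          intro l _
          have h2 : (ZMod.stdAddChar (a * d - b * c) : ℂ) * ZMod.stdAddChar (d * (k - l))
              = ZMod.stdAddChar (-(b * c)) * ZMod.stdAddChar (d * (k - l + a)) := by
            rw [← AddChar.map_add_eq_mul, ← AddChar.map_add_eq_mul]; congr 1; ring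
          calc _ = ((ZMod.stdAddChar (a * d - b * c) : ℂ) * ZMod.stdAddChar (d * (k - l))) *
                (conj (ψ k) * ψ (k + c) * ψ l * conj (ψ (l + c))) := by ring
            _ = _ := by rw [h2]; ring
      _ = ∑ k, ∑ l, (ZMod.stdAddChar (-(b * c)) *
          (conj (ψ k) * ψ (k + c) * ψ l * conj (ψ (l + c)))) *
            ∑ d : ZMod N, ZMod.stdAddChar (d * (k - l + a)) := by
          rw [Finset.sum_comm]
          apply Finset.sum_congr rfl
          intro k _
          rw [Finset.sum_comm]
          apply Finset.sum_congr rfl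
          intro l _
          rw [Finset.mul_sum]
      _ = ∑ k, (ZMod.stdAddChar (-(b * c)) *
          (conj (ψ k) * ψ (k + c) * ψ (k + a) * conj (ψ (k + a + c)))) * (N : ℂ) := by
          apply Finset.sum_congr rfl
          intro k _
          rw [Finset.sum_eq_single (k + a)]
          · rw [sum_char, if_pos (by ring)]
          · intro l _ hl
            rw [sum_char, if_neg, mul_zero]
            intro h
            apply hl
            have : k + a = l := by linear_combination h
            exact this.symm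
          · intro h; exact absurd (mem_univ _) h
      _ = _ := by
          rw [Finset.mul_sum]
          apply Finset.sum_congr rfl
          intro k _
          ring
  rw [ovl2_eq, Finset.mul_sum]
  simp_rw [h3]
  rw [← Finset.mul_sum, Finset.sum_comm, ← Finset.mul_sum]
  congr 1
  apply Finset.sum_congr rfl
  intro c _
  apply Finset.sum_congr rfl
  intro k _
  have e1 : k + c + a = k + a + c := by ring
  rw [e1]
  ring

theorem ovl2_even (ψ : ZMod N → ℂ) (a b : ZMod N) : ovl2 ψ (-a) (-b) = ovl2 ψ a b := by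
  have h1 : ovl ψ (-a) (-b) = ZMod.stdAddChar (-(a * b)) * conj (ovl ψ a b) := by
    rw [ovl, ovl, map_sum, Finset.mul_sum, ← Equiv.sum_comp (Equiv.addRight a)]
    apply Finset.sum_congr rfl
    intro k _
    simp only [Equiv.coe_addRight, map_mul, Complex.conj_conj]
    rw [← AddChar.map_neg_eq_conj]
    have h2 : (ZMod.stdAddChar (-b * (k + a)) : ℂ)
        = ZMod.stdAddChar (-(a * b)) * ZMod.stdAddChar (-(b * k)) := by
      rw [← AddChar.map_add_eq_mul]; congr 1; ring
    have h3 : k + a + -a = k := by ring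
    rw [h2, h3]
    ring
  have h4 : (ZMod.stdAddChar (-(a * b)) : ℂ) * conj (ZMod.stdAddChar (-(a * b)) : ℂ) = 1 := by
    rw [← AddChar.map_neg_eq_conj, ← AddChar.map_add_eq_mul]
    rw [add_neg_cancel, AddChar.map_zero_eq_one]
  rw [ovl2, h1, map_mul, Complex.conj_conj, ovl2]
  calc _ = ((ZMod.stdAddChar (-(a * b)) : ℂ) * conj (ZMod.stdAddChar (-(a * b)) : ℂ)) *
        (ovl ψ a b * conj (ovl ψ a b)) := by ring
    _ = _ := by rw [h4, one_mul]

theorem SD.sub {F G : ZMod N → ZMod N → ℂ} (hF : SD F) (hG : SD G) :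
    SD (fun a b => F a b - G a b) := by
  intro a b
  simp only [mul_sub, Finset.sum_sub_distrib]
  rw [hF a b, hG a b]

open Classical in
/-- the general uncertainty principle: a nonzero self-dual function has at least `N` nonzero
values -/
theorem SD.card {e : ZMod N → ZMod N → ℂ} (he : SD e)
    (hcard : (univ.filter (fun z : ZMod N × ZMod N => e z.1 z.2 ≠ 0)).card < N) :
    ∀ x y, e x y = 0 := by
  obtain ⟨z0, _, hz0⟩ := Finset.exists_max_image (univ : Finset (ZMod N × ZMod N))
    (fun z => ‖e z.1 z.2‖) ⟨(0, 0), mem_univ _⟩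
  have hN : (N : ℂ) ≠ 0 := by exact_mod_cast (NeZero.ne N)
  have h1 : (N : ℝ) * ‖e z0.1 z0.2‖ ≤
      ((univ.filter (fun z : ZMod N × ZMod N => e z.1 z.2 ≠ 0)).card : ℝ) * ‖e z0.1 z0.2‖ := by
    have h2 : (N : ℝ) * ‖e z0.1 z0.2‖ = ‖(N : ℂ) * e z0.1 z0.2‖ := by
      rw [norm_mul]; simp
    rw [h2, he, ← Fintype.sum_prod_type' (fun c d =>
      (ZMod.stdAddChar (z0.1 * d - z0.2 * c) : ℂ) * e c d)]
    refine (norm_sum_le _ _).trans ?_
    calc ∑ z : ZMod N × ZMod N, ‖(ZMod.stdAddChar (z0.1 * z.2 - z0.2 * z.1) : ℂ) * e z.1 z.2‖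
        = ∑ z : ZMod N × ZMod N, (if e z.1 z.2 ≠ 0 then ‖e z.1 z.2‖ else 0) := by
          apply Finset.sum_congr rfl
          intro z _
          have hc : ‖(ZMod.stdAddChar (z0.1 * z.2 - z0.2 * z.1) : ℂ)‖ = 1 := by
            rw [ZMod.stdAddChar_apply]
            exact Circle.norm_coe _
          rw [norm_mul, hc, one_mul]
          split_ifs with h
          · rfl
          · push Not at h
            rw [h, norm_zero]
      _ = ∑ z ∈ univ.filter (fun z : ZMod N × ZMod N => e z.1 z.2 ≠ 0), ‖e z.1 z.2‖ := by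
          rw [Finset.sum_filter]
      _ ≤ ∑ z ∈ univ.filter (fun z : ZMod N × ZMod N => e z.1 z.2 ≠ 0), ‖e z0.1 z0.2‖ :=
          Finset.sum_le_sum (fun z _ => hz0 z (mem_univ _))
      _ = _ := by rw [Finset.sum_const, nsmul_eq_mul]
  have h3 : ‖e z0.1 z0.2‖ = 0 := by
    by_contra hne
    have hpos : 0 < ‖e z0.1 z0.2‖ := lt_of_le_of_ne (norm_nonneg _) (Ne.symm hne)
    have h4 := le_of_mul_le_mul_right h1 hpos
    have h5 : N ≤ (univ.filter (fun z : ZMod N × ZMod N => e z.1 z.2 ≠ 0)).card := by
      exact_mod_cast h4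
    omega
  intro x y
  have h6 := hz0 (x, y) (mem_univ _)
  simp only at h6
  rw [h3] at h6
  exact norm_le_zero_iff.mp h6

/-- the overlaps of a fiducial vector -/
noncomputable def flat (N : ℕ) (a b : ZMod N) : ℂ := if a = 0 ∧ b = 0 then 1 else 1 / ((N : ℂ) + 1)

theorem flat_SD : SD (flat N) := by
  classical
  intro a b
  have hp1 : (N : ℂ) + 1 ≠ 0 := by exact_mod_cast (Nat.succ_ne_zero N)
  have hp0 : (N : ℂ) ≠ 0 := by exact_mod_cast (NeZero.ne N)
  have h1 : ∀ c d : ZMod N, flat N c d = 1 / ((N : ℂ) + 1)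
      + (if c = 0 then (if d = 0 then (N : ℂ) / (N + 1) else 0) else 0) := by
    intro c d
    rw [flat]
    by_cases hc : c = 0 <;> by_cases hd : d = 0 <;> simp [hc, hd]
    field_simp
    ring
  simp_rw [h1, mul_add, Finset.sum_add_distrib]
  have h2 : ∑ c : ZMod N, ∑ d : ZMod N, (ZMod.stdAddChar (a * d - b * c) : ℂ) * (1 / ((N : ℂ) + 1))
      = (if a = 0 then (if b = 0 then (N : ℂ) * N else 0) else 0) * (1 / ((N : ℂ) + 1)) := by
    have h3 : ∀ c : ZMod N, ∑ d : ZMod N, (ZMod.stdAddChar (a * d - b * c) : ℂ) * (1 / ((N : ℂ) + 1))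
        = ZMod.stdAddChar (c * (-b)) * ((if a = 0 then (N : ℂ) else 0) * (1 / ((N : ℂ) + 1))) := by
      intro c
      rw [← sum_char a, Finset.sum_mul, Finset.mul_sum]
      apply Finset.sum_congr rfl
      intro d _
      have h4 : (ZMod.stdAddChar (a * d - b * c) : ℂ)
          = ZMod.stdAddChar (c * (-b)) * ZMod.stdAddChar (d * a) := by
        rw [← AddChar.map_add_eq_mul]; congr 1; ring
      rw [h4]; ring
    simp_rw [h3]
    rw [← Finset.sum_mul, sum_char]
    by_cases ha : a = 0 <;> by_cases hb : b = 0 <;> simp [ha, hb]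
    ring
  have h5 : ∑ c : ZMod N, ∑ d : ZMod N, (ZMod.stdAddChar (a * d - b * c) : ℂ) *
      (if c = 0 then (if d = 0 then (N : ℂ) / (N + 1) else 0) else 0) = (N : ℂ) / (N + 1) := by
    rw [Finset.sum_eq_single 0]
    · rw [Finset.sum_eq_single 0]
      · simp
      · intro d _ hd; simp [hd]
      · intro h; exact absurd (mem_univ _) h
    · intro c _ hc; simp [hc]
    · intro h; exact absurd (mem_univ _) h
  rw [h2, h5]
  by_cases ha : a = 0 <;> by_cases hb : b = 0 <;> simp [ha, hb] <;> field_simp
  all_goals ring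

omit [NeZero N] in
theorem flat_even (a b : ZMod N) : flat N (-a) (-b) = flat N a b := by
  simp [flat]

end general

section prime

variable {p : ℕ} [Fact p.Prime]

/-- sums over lines of a self-dual function -/
theorem SD.line {e : ZMod p → ZMod p → ℂ} (he : SD e) (x0 y0 v w : ZMod p)
    (hvw : v ≠ 0 ∨ w ≠ 0) : ∑ t, e (x0 + t * v) (y0 + t * w)
      = ∑ t, ZMod.stdAddChar (t * (x0 * w - y0 * v)) * e (t * v) (t * w) := by
  classical
  have hp : p.Prime := Fact.out
  have hp0 : (p : ℂ) ≠ 0 := by exact_mod_cast hp.ne_zero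
  apply mul_left_cancel₀ hp0
  rw [Finset.mul_sum]
  calc ∑ t, (p : ℂ) * e (x0 + t * v) (y0 + t * w)
      = ∑ t, ∑ z : ZMod p × ZMod p, (ZMod.stdAddChar (x0 * z.2 - y0 * z.1) * e z.1 z.2) *
          ZMod.stdAddChar (t * (v * z.2 - w * z.1)) := by
        apply Finset.sum_congr rfl
        intro t _
        rw [he, Fintype.sum_prod_type]
        apply Finset.sum_congr rfl
        intro c _
        apply Finset.sum_congr rfl
        intro d _
        have h2 : (ZMod.stdAddChar ((x0 + t * v) * d - (y0 + t * w) * c) : ℂ)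
            = ZMod.stdAddChar (x0 * d - y0 * c) * ZMod.stdAddChar (t * (v * d - w * c)) := by
          rw [← AddChar.map_add_eq_mul]; congr 1; ring
        rw [h2]
        ring
    _ = ∑ z : ZMod p × ZMod p, (ZMod.stdAddChar (x0 * z.2 - y0 * z.1) * e z.1 z.2) *
          (if v * z.2 - w * z.1 = 0 then (p : ℂ) else 0) := by
        rw [Finset.sum_comm]
        apply Finset.sum_congr rfl
        intro z _
        rw [← Finset.mul_sum, sum_char]
    _ = ∑ z ∈ (univ : Finset (ZMod p × ZMod p)).filter (fun z => v * z.2 - w * z.1 = 0),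
          (p : ℂ) * (ZMod.stdAddChar (x0 * z.2 - y0 * z.1) * e z.1 z.2) := by
        rw [Finset.sum_filter]
        apply Finset.sum_congr rfl
        intro z _
        split_ifs
        · ring
        · rw [mul_zero]
    _ = ∑ t, (p : ℂ) * (ZMod.stdAddChar (t * (x0 * w - y0 * v)) * e (t * v) (t * w)) := by
        symm
        apply Finset.sum_bij (fun t _ => (t * v, t * w))
        · intro t _
          simp only [Finset.mem_filter, mem_univ, true_and]
          ring
        · intro s _ t _ hst
          simp only [Prod.mk.injEq] at hst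
          rcases hvw with h | h
          · exact mul_right_cancel₀ h hst.1
          · exact mul_right_cancel₀ h hst.2
        · intro z hz
          simp only [Finset.mem_filter, mem_univ, true_and] at hz
          rcases hvw with h | h
          · refine ⟨z.1 * v⁻¹, mem_univ _, Prod.ext ?_ ?_⟩
            · simp [h]
            · show z.1 * v⁻¹ * w = z.2
              apply mul_left_cancel₀ h
              calc v * (z.1 * v⁻¹ * w) = (v * v⁻¹) * (w * z.1) := by ring
                _ = w * z.1 := by rw [mul_inv_cancel₀ h, one_mul]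
                _ = v * z.2 := by linear_combination -hz
          · refine ⟨z.2 * w⁻¹, mem_univ _, Prod.ext ?_ ?_⟩
            · show z.2 * w⁻¹ * v = z.1
              apply mul_left_cancel₀ h
              calc w * (z.2 * w⁻¹ * v) = (w * w⁻¹) * (v * z.2) := by ring
                _ = v * z.2 := by rw [mul_inv_cancel₀ h, one_mul]
                _ = w * z.1 := by linear_combination hz
            · simp [h]
        · intro t _
          congr 3
          ring
    _ = _ := by rw [Finset.mul_sum]

open Classical in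
/-- An even self-dual function on `F_p × F_p` which vanishes at the origin is zero or has at least
`2 p - 2` nonzero values. -/
theorem sd_unc (hp : p ≠ 2) (e : ZMod p → ZMod p → ℂ) (he : SD e)
    (heven : ∀ x y, e (-x) (-y) = e x y) (h0 : e 0 0 = 0)
    (hcard : (univ.filter (fun z : ZMod p × ZMod p => e z.1 z.2 ≠ 0)).card < 2 * p - 2) :
    ∀ x y, e x y = 0 := by
  by_contra hcon
  push Not at hcon
  have := unc hp ZMod.stdAddChar e (fun x0 y0 v w hvw => he.line x0 y0 v w hvw) heven h0 hcon
  omega

end prime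

end Pool.Agent.H207.WH
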