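import Pool.Agent.H207.WH.Dual

set_option autoImplicit false

namespace Pool.Agent.H207.WH

open Finset ComplexConjugate

/-- The displacement operator `D_(a,b)`: `(D_(a,b) ψ)(k) = exp(2 π i b k / N) ψ(k + a)`. -/
noncomputable def disp {N : ℕ} [NeZero N] (g : ZMod N × ZMod N)
    (ψ : EuclideanSpace ℂ (ZMod N)) : EuclideanSpace ℂ (ZMod N) :=
  WithLp.toLp 2 (fun k => ZMod.stdAddChar (g.2 * k) * ψ (k + g.1))

section general

variable {N : ℕ} [NeZero N]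

theorem inner_disp (g : ZMod N × ZMod N) (ψ : EuclideanSpace ℂ (ZMod N)) :
    inner ℂ ψ (disp g ψ) = ovl ψ g.1 g.2 := by
  rw [PiLp.inner_apply, ovl]
  apply Finset.sum_congr rfl
  intro k _
  simp only [RCLike.inner_apply, disp]
  ring

theorem norm_char (x : ZMod N) : ‖(ZMod.stdAddChar x : ℂ)‖ = 1 := by
  rw [ZMod.stdAddChar_apply]
  exact Circle.norm_coe _

theorem norm_disp_disp (g h : ZMod N × ZMod N) (ψ : EuclideanSpace ℂ (ZMod N)) :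
    ‖inner ℂ (disp g ψ) (disp h ψ)‖ = ‖ovl ψ (h.1 - g.1) (h.2 - g.2)‖ := by
  have h1 : inner ℂ (disp g ψ) (disp h ψ)
      = ZMod.stdAddChar (-((h.2 - g.2) * g.1)) * ovl ψ (h.1 - g.1) (h.2 - g.2) := by
    rw [PiLp.inner_apply, ovl, Finset.mul_sum, ← Equiv.sum_comp (Equiv.addRight g.1)
      (fun i => (ZMod.stdAddChar (-((h.2 - g.2) * g.1)) : ℂ) *
        (conj (ψ i) * ZMod.stdAddChar ((h.2 - g.2) * i) * ψ (i + (h.1 - g.1))))]
    apply Finset.sum_congr rfl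
    intro k _
    simp only [RCLike.inner_apply, disp, Equiv.coe_addRight, map_mul]
    rw [← AddChar.map_neg_eq_conj]
    have e1 : k + g.1 + (h.1 - g.1) = k + h.1 := by ring
    have e2 : (ZMod.stdAddChar (h.2 * k) : ℂ) * ZMod.stdAddChar (-(g.2 * k))
        = ZMod.stdAddChar (-((h.2 - g.2) * g.1)) * ZMod.stdAddChar ((h.2 - g.2) * (k + g.1)) := by
      rw [← AddChar.map_add_eq_mul, ← AddChar.map_add_eq_mul]; congr 1; ring
    rw [e1]
    calc _ = ((ZMod.stdAddChar (h.2 * k) : ℂ) * ZMod.stdAddChar (-(g.2 * k))) *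
          (conj (ψ (k + g.1)) * ψ (k + h.1)) := by ring
      _ = _ := by rw [e2]; ring
  rw [h1, norm_mul, norm_char, one_mul]

theorem ovl2_norm (ψ : ZMod N → ℂ) (a b : ZMod N) : ovl2 ψ a b = ((‖ovl ψ a b‖ ^ 2 : ℝ) : ℂ) := by
  rw [ovl2, Complex.mul_conj, Complex.normSq_eq_norm_sq]

theorem ovl_zero (ψ : EuclideanSpace ℂ (ZMod N)) : ovl ψ 0 0 = ((‖ψ‖ ^ 2 : ℝ) : ℂ) := by
  rw [EuclideanSpace.norm_sq_eq, ovl]
  push_cast
  apply Finset.sum_congr rfl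
  intro k _
  rw [zero_mul, AddChar.map_zero_eq_one, mul_one, add_zero, mul_comm, Complex.mul_conj,
    Complex.normSq_eq_norm_sq]
  push_cast
  rfl

end general

theorem norm_iff (n : ℕ) (x : ℝ) (hx : 0 ≤ x) :
    x = 1 / √((n : ℝ) + 1) ↔ x ^ 2 = 1 / ((n : ℝ) + 1) := by
  have hn : (0 : ℝ) < (n : ℝ) + 1 := by positivity
  have h1 : (1 / √((n : ℝ) + 1)) ^ 2 = 1 / ((n : ℝ) + 1) := by
    rw [div_pow, one_pow, Real.sq_sqrt hn.le]
  constructor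
  · intro h; rw [h, h1]
  · intro h
    have h2 : 0 ≤ 1 / √((n : ℝ) + 1) := by positivity
    rw [← h1] at h
    exact (pow_left_inj₀ hx h2 two_ne_zero).mp h

open Classical in
theorem main_gen {N : ℕ} [NeZero N] (m : ℕ) (hm : ∀ e : ZMod N → ZMod N → ℂ, SD e →
      (∀ x y, e (-x) (-y) = e x y) → e 0 0 = 0 →
      (univ.filter (fun z : ZMod N × ZMod N => e z.1 z.2 ≠ 0)).card < m → ∀ x y, e x y = 0)
    (ψ : EuclideanSpace ℂ (ZMod N)) (hψ : ‖ψ‖ = 1)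
    (hfew : {g : ZMod N × ZMod N | g ≠ 0 ∧
      ‖inner ℂ ψ (disp g ψ)‖ ≠ 1 / √((N : ℝ) + 1)}.ncard < m) :
    ∀ g h : ZMod N × ZMod N, g ≠ h →
      ‖inner ℂ (disp g ψ) (disp h ψ)‖ = 1 / √((N : ℝ) + 1) := by
  have hcomp : ∀ a b : ZMod N, ¬ (a = 0 ∧ b = 0) → (ovl2 ψ a b - flat N a b = 0 ↔
      ‖ovl ψ a b‖ = 1 / √((N : ℝ) + 1)) := by
    intro a b hab
    rw [norm_iff N _ (norm_nonneg _), ovl2_norm, flat, if_neg hab, sub_eq_zero]
    constructor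
    · intro h
      have : (((‖ovl ψ a b‖ ^ 2 : ℝ)) : ℂ) = ((1 / ((N : ℝ) + 1) : ℝ) : ℂ) := by
        rw [h]; push_cast; rfl
      exact_mod_cast this
    · intro h
      rw [h]; push_cast; rfl
  have hzero : ovl2 ψ 0 0 - flat N 0 0 = 0 := by
    rw [ovl2, ovl_zero, hψ, flat, if_pos ⟨rfl, rfl⟩]
    simp
  have h1 := hm (fun a b => ovl2 ψ a b - flat N a b) ((ovl2_SD _).sub flat_SD)
    (fun x y => by rw [ovl2_even, flat_even]) hzero (by
      refine lt_of_le_of_lt ?_ hfew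
      rw [← Set.ncard_coe_finset]
      apply Set.ncard_le_ncard _ (Set.toFinite _)
      intro z hz
      simp only [coe_filter, mem_univ, true_and, Set.mem_ofPred_eq] at hz ⊢
      have hz0 : ¬ (z.1 = 0 ∧ z.2 = 0) := by
        intro h
        rw [h.1, h.2] at hz
        exact hz hzero
      refine ⟨fun h => hz0 ?_, ?_⟩
      · rw [h]; exact ⟨rfl, rfl⟩
      · rw [inner_disp]
        intro h
        exact hz ((hcomp z.1 z.2 hz0).mpr h))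
  intro g h hgh
  rw [norm_disp_disp]
  apply (hcomp _ _ _).mp (h1 _ _)
  intro hz
  apply hgh
  exact Prod.ext (sub_eq_zero.mp hz.1).symm (sub_eq_zero.mp hz.2).symm

theorem main (p : ℕ) [Fact p.Prime] (hp : p ≠ 2) (ψ : EuclideanSpace ℂ (ZMod p)) (hψ : ‖ψ‖ = 1)
    (hfew : {g : ZMod p × ZMod p | g ≠ 0 ∧
      ‖inner ℂ ψ (disp g ψ)‖ ≠ 1 / √((p : ℝ) + 1)}.ncard < 2 * p - 2) :
    ∀ g h : ZMod p × ZMod p, g ≠ h →
      ‖inner ℂ (disp g ψ) (disp h ψ)‖ = 1 / √((p : ℝ) + 1) :=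
  main_gen (2 * p - 2) (fun e he heven h0 hcard => sd_unc hp e he heven h0 hcard) ψ hψ hfew

theorem main_all (N : ℕ) [NeZero N] (ψ : EuclideanSpace ℂ (ZMod N)) (hψ : ‖ψ‖ = 1)
    (hfew : {g : ZMod N × ZMod N | g ≠ 0 ∧
      ‖inner ℂ ψ (disp g ψ)‖ ≠ 1 / √((N : ℝ) + 1)}.ncard < N) :
    ∀ g h : ZMod N × ZMod N, g ≠ h →
      ‖inner ℂ (disp g ψ) (disp h ψ)‖ = 1 / √((N : ℝ) + 1) :=
  main_gen N (fun _ he _ _ hcard => SD.card he hcard) ψ hψ hfew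

/-! ### A vector in dimension two -/

/-- the real vector with `x ^ 2 = (1 + 1 / √3) / 2` -/
noncomputable def vec2 : EuclideanSpace ℂ (ZMod 2) :=
  WithLp.toLp 2 (fun k : ZMod 2 =>
    (((![√((1 + 1 / √3) / 2), √((1 - 1 / √3) / 2)] : Fin 2 → ℝ) k : ℝ) : ℂ))

theorem sum2 (f : ZMod 2 → ℂ) : ∑ k, f k = f 0 + f 1 := Fin.sum_univ_two f

theorem char2 : (ZMod.stdAddChar (1 : ZMod 2) : ℂ) = -1 := by
  have h1 : (ZMod.stdAddChar (1 : ZMod 2) : ℂ) ≠ 1 := by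
    intro h
    have h2 : (ZMod.stdAddChar (1 : ZMod 2) : ℂ) = ZMod.stdAddChar (0 : ZMod 2) := by
      rw [h, AddChar.map_zero_eq_one]
    have h3 := ZMod.injective_stdAddChar h2
    exact absurd h3 (by decide)
  have h2 : (ZMod.stdAddChar (1 : ZMod 2) : ℂ) ^ 2 = 1 := by
    rw [← AddChar.map_nsmul_eq_pow]
    have : (2 : ℕ) • (1 : ZMod 2) = 0 := by decide
    rw [this, AddChar.map_zero_eq_one]
  have h3 : ((ZMod.stdAddChar (1 : ZMod 2) : ℂ) - 1) * (ZMod.stdAddChar (1 : ZMod 2) + 1) = 0 := by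
    linear_combination h2
  exact eq_neg_of_add_eq_zero_left ((mul_eq_zero.mp h3).resolve_left (sub_ne_zero.mpr h1))

theorem sharp2 : ∃ ψ : EuclideanSpace ℂ (ZMod 2), ‖ψ‖ = 1 ∧
    {g : ZMod 2 × ZMod 2 | g ≠ 0 ∧ ‖inner ℂ ψ (disp g ψ)‖ ≠ 1 / √(((2 : ℕ) : ℝ) + 1)}.ncard = 2 := by
  have h3 : (1 : ℝ) < √3 := by
    rw [Real.lt_sqrt (by norm_num)]; norm_num
  have h33 : √(3 : ℝ) ^ 2 = 3 := Real.sq_sqrt (by norm_num)
  have hinv : (1 / √3 : ℝ) ^ 2 = 1 / 3 := by rw [div_pow, h33, one_pow]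
  have hinv1 : (1 / √3 : ℝ) < 1 := by
    rw [div_lt_one (by linarith)]; exact h3
  have hinv0 : (0 : ℝ) < 1 / √3 := by positivity
  set x : ℝ := √((1 + 1 / √3) / 2) with hx
  set y : ℝ := √((1 - 1 / √3) / 2) with hy
  have hx2 : x ^ 2 = (1 + 1 / √3) / 2 := Real.sq_sqrt (by linarith)
  have hy2 : y ^ 2 = (1 - 1 / √3) / 2 := Real.sq_sqrt (by linarith)
  have hov : ∀ a b : ZMod 2, ovl vec2 a b
      = (((![x, y] : Fin 2 → ℝ) 0 * (![x, y] : Fin 2 → ℝ) a : ℝ) : ℂ)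
      + (((![x, y] : Fin 2 → ℝ) 1 * (![x, y] : Fin 2 → ℝ) (1 + a : ZMod 2) : ℝ) : ℂ) *
        ZMod.stdAddChar b := by
    intro a b
    rw [ovl, sum2]
    simp only [vec2, Complex.conj_ofReal, mul_zero, AddChar.map_zero_eq_one, mul_one, zero_add]
    push_cast
    simp only [← hx, ← hy]
    ring
  have v01 : ‖ovl vec2 0 1‖ ^ 2 = 1 / 3 := by
    have : ovl vec2 0 1 = ((x ^ 2 - y ^ 2 : ℝ) : ℂ) := by
      rw [hov, char2, add_zero]
      show ((x * x : ℝ) : ℂ) + ((y * y : ℝ) : ℂ) * (-1) = _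
      push_cast; ring
    rw [this, Complex.norm_real, Real.norm_eq_abs, sq_abs, hx2, hy2]
    have : (1 + 1 / √3) / 2 - (1 - 1 / √3) / 2 = (1 / √3 : ℝ) := by ring
    rw [this, hinv]
  have v10 : ‖ovl vec2 1 0‖ ^ 2 = 2 / 3 := by
    have : ovl vec2 1 0 = ((2 * (x * y) : ℝ) : ℂ) := by
      rw [hov, AddChar.map_zero_eq_one]
      have e : (1 : ZMod 2) + 1 = 0 := by decide
      rw [e]
      show ((x * y : ℝ) : ℂ) + ((y * x : ℝ) : ℂ) * 1 = _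
      push_cast; ring
    rw [this, Complex.norm_real, Real.norm_eq_abs, sq_abs]
    have : (2 * (x * y)) ^ 2 = 4 * x ^ 2 * y ^ 2 := by ring
    rw [this, hx2, hy2]
    have : 4 * ((1 + 1 / √3) / 2) * ((1 - 1 / √3) / 2) = 1 - (1 / √3 : ℝ) ^ 2 := by ring
    rw [this, hinv]
    norm_num
  have v11 : ‖ovl vec2 1 1‖ ^ 2 = 0 := by
    have : ovl vec2 1 1 = 0 := by
      rw [hov, char2]
      have e : (1 : ZMod 2) + 1 = 0 := by decide
      rw [e]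
      show ((x * y : ℝ) : ℂ) + ((y * x : ℝ) : ℂ) * (-1) = _
      push_cast; ring
    rw [this]; simp
  have hnorm : ‖vec2‖ = 1 := by
    have h1 : ‖vec2‖ ^ 2 = 1 := by
      rw [EuclideanSpace.norm_sq_eq]
      have h2 : ∀ f : ZMod 2 → ℝ, ∑ k, f k = f 0 + f 1 := fun f => Fin.sum_univ_two f
      rw [h2]
      simp only [vec2, Complex.norm_real, Real.norm_eq_abs, sq_abs]
      show x ^ 2 + y ^ 2 = 1
      rw [hx2, hy2]; ring
    have h2 := norm_nonneg vec2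
    nlinarith
  refine ⟨vec2, hnorm, ?_⟩
  have key : {g : ZMod 2 × ZMod 2 | g ≠ 0 ∧
      ‖inner ℂ vec2 (disp g vec2)‖ ≠ 1 / √(((2 : ℕ) : ℝ) + 1)}
      = (({(1, 0), (1, 1)} : Finset (ZMod 2 × ZMod 2)) : Set (ZMod 2 × ZMod 2)) := by
    ext ⟨a, b⟩
    rw [Finset.mem_coe, Set.mem_ofPred_eq, inner_disp, Ne, Ne, norm_iff 2 _ (norm_nonneg _)]
    have hc : ∀ a : ZMod 2, a = 0 ∨ a = 1 := by decide
    rcases hc a with rfl | rfl <;> rcases hc b with rfl | rfl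
    · simp
    · simp only [v01]
      simp
      norm_num
    · simp only [v10]
      simp
      norm_num
    · simp only [v11]
      simp
      norm_num
  rw [key, Set.ncard_coe_finset]
  decide

/-! ### The vector in dimension three -/

/-- the vector `(1, -1, 2 √2) / √10` -/
noncomputable def vec3 : EuclideanSpace ℂ (ZMod 3) :=
  WithLp.toLp 2 (fun k : ZMod 3 => (((![1, -1, 2 * √2] : Fin 3 → ℝ) k / √10 : ℝ) : ℂ))

theorem sum3 (f : ZMod 3 → ℂ) : ∑ k, f k = f 0 + f 1 + f 2 := Fin.sum_univ_three f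

theorem om_cube : (ZMod.stdAddChar (1 : ZMod 3) : ℂ) ^ 3 = 1 := by
  rw [← AddChar.map_nsmul_eq_pow]
  have : (3 : ℕ) • (1 : ZMod 3) = 0 := by decide
  rw [this, AddChar.map_zero_eq_one]

theorem om_sum : 1 + (ZMod.stdAddChar (1 : ZMod 3) : ℂ) + ZMod.stdAddChar (1 : ZMod 3) ^ 2 = 0 := by
  have h1 : (ZMod.stdAddChar (1 : ZMod 3) : ℂ) ≠ 1 := by
    intro h
    have h2 : (ZMod.stdAddChar (1 : ZMod 3) : ℂ) = ZMod.stdAddChar (0 : ZMod 3) := by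
      rw [h, AddChar.map_zero_eq_one]
    have h3 := ZMod.injective_stdAddChar h2
    exact absurd h3 (by decide)
  have h2 := om_cube
  have h3 : ((ZMod.stdAddChar (1 : ZMod 3) : ℂ) - 1) *
      (1 + ZMod.stdAddChar (1 : ZMod 3) + ZMod.stdAddChar (1 : ZMod 3) ^ 2) = 0 := by
    linear_combination h2
  exact (mul_eq_zero.mp h3).resolve_left (sub_ne_zero.mpr h1)

theorem om_two : (ZMod.stdAddChar (2 : ZMod 3) : ℂ) = ZMod.stdAddChar (1 : ZMod 3) ^ 2 := by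
  rw [← AddChar.map_nsmul_eq_pow]
  congr 1

theorem om_conj : conj (ZMod.stdAddChar (1 : ZMod 3) : ℂ) = ZMod.stdAddChar (1 : ZMod 3) ^ 2 := by
  rw [← AddChar.map_neg_eq_conj, ← om_two]
  congr 1

theorem om_norm (u v w : ℝ) : ‖(u : ℂ) + v * ZMod.stdAddChar (1 : ZMod 3)
    + w * ZMod.stdAddChar (1 : ZMod 3) ^ 2‖ ^ 2
      = u ^ 2 + v ^ 2 + w ^ 2 - u * v - v * w - w * u := by
  rw [← Complex.normSq_eq_norm_sq]
  have h : ((Complex.normSq ((u : ℂ) + v * ZMod.stdAddChar (1 : ZMod 3)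
    + w * ZMod.stdAddChar (1 : ZMod 3) ^ 2) : ℝ) : ℂ)
      = ((u ^ 2 + v ^ 2 + w ^ 2 - u * v - v * w - w * u : ℝ) : ℂ) := by
    rw [← Complex.mul_conj]
    simp only [map_add, map_mul, map_pow, Complex.conj_ofReal, om_conj]
    push_cast
    have h1 := om_sum
    have h2 := om_cube
    set z := (ZMod.stdAddChar (1 : ZMod 3) : ℂ)
    have h4 : z ^ 4 = z := by linear_combination z * h2
    have h6 : z ^ 6 = 1 := by linear_combination (z ^ 3 + 1) * h2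
    have h5 : z ^ 5 = z ^ 2 := by linear_combination z ^ 2 * h2
    have hz2 : z ^ 2 = -1 - z := by linear_combination h1
    calc ((u : ℂ) + v * z + w * z ^ 2) * (u + v * z ^ 2 + w * (z ^ 2) ^ 2)
        = u ^ 2 + v ^ 2 * z ^ 3 + w ^ 2 * z ^ 6 + u * v * (z + z ^ 2) + u * w * (z ^ 2 + z ^ 4)
          + v * w * (z ^ 4 + z ^ 5) := by ring
      _ = _ := by rw [h2, h6, h5, h4, hz2]; ring
  exact_mod_cast h

theorem vec3_norm : ‖vec3‖ = 1 := by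
  have h1 : ‖vec3‖ ^ 2 = 1 := by
    rw [EuclideanSpace.norm_sq_eq]
    have h2 : ∀ f : ZMod 3 → ℝ, ∑ k, f k = f 0 + f 1 + f 2 := fun f => Fin.sum_univ_three f
    rw [h2]
    simp only [vec3, Complex.norm_real, Real.norm_eq_abs, sq_abs]
    have e0 : (![1, -1, 2 * √2] : Fin 3 → ℝ) (0 : ZMod 3) = 1 := rfl
    have e1 : (![1, -1, 2 * √2] : Fin 3 → ℝ) (1 : ZMod 3) = -1 := rfl
    have e2 : (![1, -1, 2 * √2] : Fin 3 → ℝ) (2 : ZMod 3) = 2 * √2 := rfl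
    rw [e0, e1, e2]
    have h10 : √10 ^ 2 = 10 := Real.sq_sqrt (by norm_num)
    have hs : √(2 : ℝ) ^ 2 = 2 := Real.sq_sqrt (by norm_num)
    rw [div_pow, div_pow, div_pow, h10, mul_pow, hs]
    norm_num
  have h2 := norm_nonneg vec3
  nlinarith

/-- the coefficients of the overlaps of `vec3` -/
theorem vec3_ovl (a b : ZMod 3) : ovl vec3 a b = ∑ k : ZMod 3, ((((![1, -1, 2 * √2] : Fin 3 → ℝ) k *
    (![1, -1, 2 * √2] : Fin 3 → ℝ) (k + a) / 10 : ℝ)) : ℂ) * ZMod.stdAddChar (b * k) := by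
  rw [ovl]
  apply Finset.sum_congr rfl
  intro k _
  simp only [vec3, Complex.conj_ofReal]
  have h10 : (√10 : ℝ) * √10 = 10 := Real.mul_self_sqrt (by norm_num)
  have h1 : ((((![1, -1, 2 * √2] : Fin 3 → ℝ) k / √10 : ℝ)) : ℂ) *
      ((((![1, -1, 2 * √2] : Fin 3 → ℝ) (k + a) / √10 : ℝ)) : ℂ)
      = ((((![1, -1, 2 * √2] : Fin 3 → ℝ) k * (![1, -1, 2 * √2] : Fin 3 → ℝ) (k + a) / 10 : ℝ)) : ℂ) := by
    rw [← Complex.ofReal_mul]
    congr 1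
    rw [div_mul_div_comm, h10]
  rw [← h1]
  ring

theorem vec3_vals : (∀ b : ZMod 3, b ≠ 0 → ‖ovl vec3 0 b‖ ^ 2 = 49 / 100) ∧
    (∀ a : ZMod 3, a ≠ 0 → ‖ovl vec3 a 0‖ ^ 2 = 1 / 100) ∧
    (∀ a b : ZMod 3, a ≠ 0 → b ≠ 0 → ‖ovl vec3 a b‖ ^ 2 = 1 / 4) := by
  have hs : √(2 : ℝ) ^ 2 = 2 := Real.sq_sqrt (by norm_num)
  have hs2 : √(2 : ℝ) * √2 = 2 := Real.mul_self_sqrt (by norm_num)
  set r : ZMod 3 → ℝ := (![1, -1, 2 * √2] : Fin 3 → ℝ) with hr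
  have e0 : r 0 = 1 := rfl
  have e1 : r 1 = -1 := rfl
  have e2 : r 2 = 2 * √2 := rfl
  have hov : ∀ a b : ZMod 3, ovl vec3 a b = ((r 0 * r a / 10 : ℝ) : ℂ)
      + ((r 1 * r (1 + a) / 10 : ℝ) : ℂ) * ZMod.stdAddChar b
      + ((r 2 * r (2 + a) / 10 : ℝ) : ℂ) * ZMod.stdAddChar (b * 2) := by
    intro a b
    rw [vec3_ovl, sum3]
    rw [mul_zero, AddChar.map_zero_eq_one, mul_one, mul_one, zero_add]
  have b1 : ∀ a : ZMod 3, ‖ovl vec3 a 1‖ ^ 2 = (r 0 * r a / 10) ^ 2 + (r 1 * r (1 + a) / 10) ^ 2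
      + (r 2 * r (2 + a) / 10) ^ 2 - (r 0 * r a / 10) * (r 1 * r (1 + a) / 10)
      - (r 1 * r (1 + a) / 10) * (r 2 * r (2 + a) / 10)
      - (r 2 * r (2 + a) / 10) * (r 0 * r a / 10) := by
    intro a
    rw [hov, one_mul, om_two]
    exact om_norm _ _ _
  have b2 : ∀ a : ZMod 3, ‖ovl vec3 a 2‖ ^ 2 = (r 0 * r a / 10) ^ 2 + (r 1 * r (1 + a) / 10) ^ 2
      + (r 2 * r (2 + a) / 10) ^ 2 - (r 0 * r a / 10) * (r 1 * r (1 + a) / 10)
      - (r 1 * r (1 + a) / 10) * (r 2 * r (2 + a) / 10)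
      - (r 2 * r (2 + a) / 10) * (r 0 * r a / 10) := by
    intro a
    have h22 : (2 : ZMod 3) * 2 = 1 := by decide
    rw [hov, h22, om_two]
    have h := om_norm (r 0 * r a / 10) (r 2 * r (2 + a) / 10) (r 1 * r (1 + a) / 10)
    rw [add_right_comm] at h
    rw [h]
    ring
  have b0 : ∀ a : ZMod 3, ‖ovl vec3 a 0‖ ^ 2 = (r 0 * r a / 10 + r 1 * r (1 + a) / 10
      + r 2 * r (2 + a) / 10) ^ 2 := by
    intro a
    rw [hov, zero_mul, AddChar.map_zero_eq_one, mul_one, mul_one]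
    rw [← Complex.ofReal_add, ← Complex.ofReal_add, Complex.norm_real, Real.norm_eq_abs, sq_abs]
  have c11 : (1 : ZMod 3) + 1 = 2 := by decide
  have c12 : (1 : ZMod 3) + 2 = 0 := by decide
  have c21 : (2 : ZMod 3) + 1 = 0 := by decide
  have c22 : (2 : ZMod 3) + 2 = 1 := by decide
  have cases3 : ∀ a : ZMod 3, a ≠ 0 → a = 1 ∨ a = 2 := by decide
  refine ⟨?_, ?_, ?_⟩
  · intro b hb
    rcases cases3 b hb with rfl | rfl
    · rw [b1, add_zero, add_zero, e0, e1, e2]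
      nlinarith [hs]
    · rw [b2, add_zero, add_zero, e0, e1, e2]
      nlinarith [hs]
  · intro a ha
    rcases cases3 a ha with rfl | rfl
    · rw [b0, c11, c21, e0, e1, e2]
      nlinarith [hs]
    · rw [b0, c12, c22, e0, e1, e2]
      nlinarith [hs]
  · intro a b ha hb
    rcases cases3 a ha with rfl | rfl <;> rcases cases3 b hb with rfl | rfl
    · rw [b1, c11, c21, e0, e1, e2]
      nlinarith [hs]
    · rw [b2, c11, c21, e0, e1, e2]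
      nlinarith [hs]
    · rw [b1, c12, c22, e0, e1, e2]
      nlinarith [hs]
    · rw [b2, c12, c22, e0, e1, e2]
      nlinarith [hs]

theorem sharp3 : ∃ ψ : EuclideanSpace ℂ (ZMod 3), ‖ψ‖ = 1 ∧
    {g : ZMod 3 × ZMod 3 | g ≠ 0 ∧ ‖inner ℂ ψ (disp g ψ)‖ ≠ 1 / √(((3 : ℕ) : ℝ) + 1)}.ncard = 4 := by
  refine ⟨vec3, vec3_norm, ?_⟩
  obtain ⟨h1, h2, h3⟩ := vec3_vals
  have key : {g : ZMod 3 × ZMod 3 | g ≠ 0 ∧
      ‖inner ℂ vec3 (disp g vec3)‖ ≠ 1 / √(((3 : ℕ) : ℝ) + 1)}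
      = (({(0, 1), (0, 2), (1, 0), (2, 0)} : Finset (ZMod 3 × ZMod 3)) : Set (ZMod 3 × ZMod 3)) := by
    ext ⟨a, b⟩
    rw [Finset.mem_coe, Set.mem_ofPred_eq, inner_disp, Ne, Ne, norm_iff 3 _ (norm_nonneg _)]
    have hmem : ((a, b) ∈ ({(0, 1), (0, 2), (1, 0), (2, 0)} : Finset (ZMod 3 × ZMod 3)))
        ↔ (a = 0 ∧ b ≠ 0) ∨ (a ≠ 0 ∧ b = 0) := by
      revert a b; decide
    rw [hmem]
    by_cases ha : a = 0
    · by_cases hb : b = 0
      · simp [ha, hb]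
      · subst ha
        simp only [h1 b hb]
        simp [hb]
        norm_num
    · by_cases hb : b = 0
      · subst hb
        simp only [h2 a ha]
        simp [ha]
        norm_num
      · simp only [h3 a b ha hb]
        simp [ha, hb]
        norm_num
  rw [key, Set.ncard_coe_finset]
  decide

end Pool.Agent.H207.WH
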