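import Pool.Agent.H207.WH.Red

/-!
# The uncertainty principle on `F_p` in characteristic zero
-/

set_option autoImplicit false

namespace Pool.Agent.H207.WH

open Finset Polynomial

theorem exists_val_char (L : Type*) [Field L] [CharZero L] (p : ℕ) [Fact p.Prime] :
    ∃ B : ValuationSubring L, (p : L) ∈ B.nonunits := by
  have hp : p.Prime := Fact.out
  let A : Subring L := (Int.castRingHom L).range
  have h3 : (p : L) ∈ A := ⟨(p : ℤ), by simp⟩
  have hI : Ideal.span {(⟨(p : L), h3⟩ : A)} ≠ ⊤ := by
    intro htop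
    have h1 : (1 : A) ∈ Ideal.span {(⟨(p : L), h3⟩ : A)} := by rw [htop]; trivial
    rw [Ideal.mem_span_singleton'] at h1
    obtain ⟨⟨a, n, hn⟩, ha⟩ := h1
    have h2 : a * (p : L) = 1 := congrArg Subtype.val ha
    rw [← hn] at h2
    have h4 : n * (p : ℤ) = 1 := by
      have : ((n * (p : ℤ) : ℤ) : L) = ((1 : ℤ) : L) := by
        push_cast
        simpa using h2
      exact_mod_cast this
    have h5 : (p : ℤ) ∣ 1 := ⟨n, by rw [← h4]; ring⟩
    have h6 : (p : ℤ) ≤ 1 := Int.le_of_dvd one_pos h5
    have := hp.two_le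
    omega
  obtain ⟨B, _, hB⟩ := Ideal.image_subset_nonunits_valuationSubring _ hI
  exact ⟨B, hB ⟨⟨(p : L), h3⟩, Ideal.subset_span rfl, rfl⟩⟩

variable {p : ℕ} [Fact p.Prime]

/-- moments of the coefficients of a polynomial divisible by a power of `X - 1` -/
theorem mom_of_dvd {K : Type*} [Field K] (c : ZMod p → K) (m l : ℕ) (hl : l < m)
    (h : (X - 1 : K[X]) ^ m ∣ ∑ x : ZMod p, C (c x) * X ^ x.val) :
    ∑ x : ZMod p, c x * (x.val : K) ^ l = 0 := by
  induction l generalizing c m with
  | zero =>
    have h1 : (X - 1 : K[X]) ∣ ∑ x : ZMod p, C (c x) * X ^ x.val :=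
      (dvd_pow_self _ (by omega)).trans h
    rw [← C_1, dvd_iff_isRoot, IsRoot, eval_finsetSum] at h1
    rw [← h1]
    apply Finset.sum_congr rfl
    intro x _
    simp
  | succ l ih =>
    have h1 := ih (fun x => c x * (x.val : K)) (m - 1) (by omega) (by
      have h2 := pow_sub_one_dvd_derivative_of_pow_dvd h
      have h3 : ∑ x : ZMod p, C (c x * (x.val : K)) * X ^ x.val
          = X * derivative (∑ x : ZMod p, C (c x) * X ^ x.val : K[X]) := by
        rw [derivative_sum, Finset.mul_sum]
        apply Finset.sum_congr rfl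
        intro x _
        rw [derivative_C_mul_X_pow]
        rcases Nat.eq_zero_or_pos x.val with h4 | h4
        · rw [h4]; simp
        · have h5 : (X : K[X]) ^ x.val = X * X ^ (x.val - 1) := by
            rw [← pow_succ']
            congr 1; omega
          rw [h5]
          push_cast
          ring
      rw [h3]
      exact h2.mul_left _)
    rw [← h1]
    apply Finset.sum_congr rfl
    intro x _
    rw [pow_succ]; ring

variable {k : Type*} [Field k]

theorem chi_smul (χ : AddChar (ZMod p) k) (x b : ZMod p) : χ (x * b) = χ b ^ x.val := by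
  rw [← AddChar.map_nsmul_eq_pow]
  congr 1
  rw [nsmul_eq_mul, ZMod.natCast_zmod_val]

theorem chi_inj {χ : AddChar (ZMod p) k} (hχ : χ.IsPrimitive) (a b : ZMod p) (h : χ a = χ b) :
    a = b := by
  by_contra hab
  apply hχ (sub_ne_zero.mpr hab)
  ext x
  rw [AddChar.mulShift_apply, AddChar.one_apply, mul_comm, chi_smul]
  have h1 : χ (a - b) = 1 := by
    have h2 : χ (a - b) * χ b = χ b := by
      rw [← AddChar.map_add_eq_mul, sub_add_cancel, h]
    have h3 : χ b ≠ 0 := by
      intro h0
      have := chi_pow χ b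
      rw [h0, zero_pow (Fact.out : p.Prime).ne_zero] at this
      exact zero_ne_one this
    exact mul_right_cancel₀ h3 (by rw [h2, one_mul])
  rw [h1, one_pow]

open Classical in
/-- **Uncertainty principle** (Chebotarev, Tao). -/
theorem tao [CharZero k] {χ : AddChar (ZMod p) k} (hχ : χ.IsPrimitive) (f : ZMod p → k)
    (hf : ∃ x, f x ≠ 0) :
    p + 1 ≤ (univ.filter (fun x => f x ≠ 0)).card +
      (univ.filter (fun b => ∑ x, f x * χ (x * b) ≠ 0)).card := by
  have hp : p.Prime := Fact.out
  obtain ⟨B, hB⟩ := exists_val_char k p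
  have hch := char_res B hB
  let ι : ZMod p →+* IsLocalRing.ResidueField B := ZMod.castHom (dvd_refl p) _
  obtain ⟨z0, _, hz0⟩ := Finset.exists_max_image (univ : Finset (ZMod p))
    (fun z => B.valuation (f z)) ⟨0, mem_univ _⟩
  have hz0ne : f z0 ≠ 0 := by
    intro h
    obtain ⟨x, hx⟩ := hf
    have h1 := hz0 x (mem_univ _)
    rw [h, map_zero] at h1
    exact hx ((map_eq_zero _).mp (le_antisymm h1 zero_le))
  have hmem : ∀ x, f x / f z0 ∈ B := by
    intro x
    rw [← B.valuation_le_one_iff, map_div₀]
    exact div_le_one_of_le₀ (hz0 x (mem_univ _)) zero_le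
  set Z := univ.filter (fun b => ∑ x, f x * χ (x * b) = 0) with hZ
  have hZc : Z.card + (univ.filter (fun b => ∑ x, f x * χ (x * b) ≠ 0)).card = p := by
    have := Finset.card_filter_add_card_filter_not (s := (univ : Finset (ZMod p)))
      (fun b => ∑ x, f x * χ (x * b) = 0)
    rw [Finset.card_univ, ZMod.card] at this
    exact this
  let F : B[X] := ∑ x : ZMod p, C (⟨f x / f z0, hmem x⟩ : B) * X ^ x.val
  have hF0 : F.map (IsLocalRing.residue B) ≠ 0 := by
    intro h
    have h1 : (F.map (IsLocalRing.residue B)).coeff z0.val = 1 := by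
      rw [coeff_map]
      have h2 : F.coeff z0.val = ⟨f z0 / f z0, hmem z0⟩ := by
        show (∑ x : ZMod p, C (⟨f x / f z0, hmem x⟩ : B) * X ^ x.val).coeff z0.val = _
        rw [finsetSum_coeff]
        simp_rw [coeff_C_mul_X_pow]
        rw [Finset.sum_eq_single z0, if_pos rfl]
        · intro b _ hb
          rw [if_neg]
          intro h3
          exact hb (ZMod.val_injective p h3).symm
        · intro h; exact absurd (mem_univ _) h
      rw [h2]
      have h3 : (⟨f z0 / f z0, hmem z0⟩ : B) = 1 := Subtype.ext (div_self hz0ne)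
      rw [h3, map_one]
    rw [h, coeff_zero] at h1
    exact zero_ne_one h1
  have hFne : F ≠ 0 := by
    intro h
    rw [h, Polynomial.map_zero] at hF0
    exact hF0 rfl
  let χ' : ZMod p → B := fun t => ⟨χ t, chi_mem B χ t⟩
  have hχ' : Function.Injective χ' := fun a b hab => chi_inj hχ a b (congrArg Subtype.val hab)
  have hroot : ∀ b ∈ Z, F.IsRoot (χ' b) := by
    intro b hb
    rw [hZ, Finset.mem_filter] at hb
    rw [IsRoot]
    apply Subtype.ext
    show ((∑ x : ZMod p, C (⟨f x / f z0, hmem x⟩ : B) * X ^ x.val).eval (χ' b) : B).val = 0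
    rw [eval_finsetSum]
    push_cast
    have h1 : ∑ x : ZMod p, f x / f z0 * χ b ^ x.val = 0 := by
      have h2 : ∑ x : ZMod p, f x / f z0 * χ b ^ x.val = (∑ x, f x * χ (x * b)) / f z0 := by
        rw [Finset.sum_div]
        apply Finset.sum_congr rfl
        intro x _
        rw [chi_smul]; ring
      rw [h2, hb.2, zero_div]
    rw [← h1]
    apply Finset.sum_congr rfl
    intro x _
    simp [χ']
  have hdvd : (∏ b ∈ Z, (X - C (χ' b))) ∣ F := by
    have h1 : (Z.val.map χ') ≤ F.roots := by
      rw [Multiset.le_iff_subset (Multiset.Nodup.map hχ' Z.nodup)]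
      intro y hy
      rw [Multiset.mem_map] at hy
      obtain ⟨b, hb, rfl⟩ := hy
      exact (mem_roots hFne).mpr (hroot b hb)
    have h2 : ∏ b ∈ Z, (X - C (χ' b)) = ((Z.val.map χ').map (fun a => X - C a)).prod := by
      rw [Multiset.map_map]; rfl
    rw [h2]
    exact (Multiset.prod_dvd_prod_of_le (Multiset.map_le_map h1)).trans
      (prod_multiset_X_sub_C_dvd F)
  have hdvd2 : (X - 1 : (IsLocalRing.ResidueField B)[X]) ^ Z.card ∣
      ∑ x : ZMod p, C (rs B (f x / f z0)) * X ^ x.val := by
    have h1 := Polynomial.map_dvd (IsLocalRing.residue B) hdvd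
    have h2 : (∏ b ∈ Z, (X - C (χ' b))).map (IsLocalRing.residue B)
        = (X - 1 : (IsLocalRing.ResidueField B)[X]) ^ Z.card := by
      rw [Polynomial.map_prod, ← Finset.prod_const]
      apply Finset.prod_congr rfl
      intro b _
      rw [Polynomial.map_sub, map_X, map_C]
      have h3 : IsLocalRing.residue B (χ' b) = 1 := by
        rw [← rs_chi B hB χ b, rs_of B (chi_mem B χ b)]
      rw [h3, C_1]
    have h4 : F.map (IsLocalRing.residue B)
        = ∑ x : ZMod p, C (rs B (f x / f z0)) * X ^ x.val := by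
      show (∑ x : ZMod p, C (⟨f x / f z0, hmem x⟩ : B) * X ^ x.val).map _ = _
      rw [Polynomial.map_sum]
      apply Finset.sum_congr rfl
      intro x _
      rw [Polynomial.map_mul, map_C, Polynomial.map_pow, map_X, rs_of B (hmem x)]
    rwa [h2, h4] at h1
  have h5 := vand ι (fun x => rs B (f x / f z0)) Z.card (by
      intro l hl
      rw [← mom_of_dvd _ Z.card l hl hdvd2]
      apply Finset.sum_congr rfl
      intro x _
      have : ι x = (x.val : IsLocalRing.ResidueField B) := by
        rw [← map_natCast ι, ZMod.natCast_zmod_val]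
      rw [this]) ⟨z0, by rw [div_self hz0ne, rs_one]; exact one_ne_zero⟩
  have h6 : (univ.filter (fun x => rs B (f x / f z0) ≠ 0)).card
      ≤ (univ.filter (fun x => f x ≠ 0)).card := by
    apply Finset.card_le_card
    intro x hx
    rw [Finset.mem_filter] at *
    refine ⟨mem_univ _, ?_⟩
    intro h
    apply hx.2
    rw [h, zero_div, rs_zero]
  omega

end Pool.Agent.H207.WH
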