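import Pool.Agent.H207.WH.Comb

/-!
# The uncertainty principle for even functions self-dual under the symplectic Fourier transform
-/

set_option autoImplicit false

namespace Pool.Agent.H207.WH

open Finset

variable {p : ℕ} [Fact p.Prime]

theorem exists_val (p : ℕ) [Fact p.Prime] : ∃ B : ValuationSubring ℂ, (p : ℂ) ∈ B.nonunits := by
  have hp : p.Prime := Fact.out
  let A : Subring ℂ := (Int.castRingHom ℂ).range
  have h3 : (p : ℂ) ∈ A := ⟨(p : ℤ), by simp⟩
  have hI : Ideal.span {(⟨(p : ℂ), h3⟩ : A)} ≠ ⊤ := by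
    intro htop
    have h1 : (1 : A) ∈ Ideal.span {(⟨(p : ℂ), h3⟩ : A)} := by rw [htop]; trivial
    rw [Ideal.mem_span_singleton'] at h1
    obtain ⟨⟨a, n, hn⟩, ha⟩ := h1
    have h2 : a * (p : ℂ) = 1 := congrArg Subtype.val ha
    rw [← hn] at h2
    have h4 : n * (p : ℤ) = 1 := by
      have : ((n * (p : ℤ) : ℤ) : ℂ) = ((1 : ℤ) : ℂ) := by
        push_cast
        simpa using h2
      exact_mod_cast this
    have h5 : (p : ℤ) ∣ 1 := ⟨n, by rw [← h4]; ring⟩
    have h6 : (p : ℤ) ≤ 1 := Int.le_of_dvd one_pos h5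
    have := hp.two_le
    omega
  obtain ⟨B, _, hB⟩ := Ideal.image_subset_nonunits_valuationSubring _ hI
  exact ⟨B, hB ⟨⟨(p : ℂ), h3⟩, Ideal.subset_span rfl, rfl⟩⟩

theorem char_pow (χ : AddChar (ZMod p) ℂ) (t : ZMod p) : χ t ^ p = 1 := by
  rw [← AddChar.map_nsmul_eq_pow]
  have : p • t = 0 := by simp
  rw [this, AddChar.map_zero_eq_one]

theorem char_mem (B : ValuationSubring ℂ) (χ : AddChar (ZMod p) ℂ) (t : ZMod p) : χ t ∈ B := by
  have hp : p.Prime := Fact.out
  rcases B.mem_or_inv_mem (χ t) with h | h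
  · exact h
  · have h0 : χ t ≠ 0 := by
      intro h0
      have := char_pow χ t
      rw [h0, zero_pow hp.ne_zero] at this
      exact zero_ne_one this
    have h1 : χ t = ((χ t)⁻¹) ^ (p - 1) := by
      have h2 : χ t ^ (p - 1 + 1) = 1 := by
        rw [Nat.sub_add_cancel hp.one_le]; exact char_pow χ t
      rw [pow_succ] at h2
      rw [inv_pow]
      exact eq_inv_of_mul_eq_one_right h2
    rw [h1]
    exact pow_mem h _

open Classical in
/-- **The uncertainty principle.**  An even nonzero function on `F_p × F_p` which vanishes at the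
origin and whose sums over the lines are given by the self-duality relation has at least `2 p - 2`
nonzero values. -/
theorem unc (hp : p ≠ 2) (χ : AddChar (ZMod p) ℂ) (e : ZMod p → ZMod p → ℂ)
    (hlin : ∀ x0 y0 v w : ZMod p, (v ≠ 0 ∨ w ≠ 0) → ∑ t, e (x0 + t * v) (y0 + t * w)
      = ∑ t, χ (t * (x0 * w - y0 * v)) * e (t * v) (t * w))
    (heven : ∀ x y, e (-x) (-y) = e x y) (h0 : e 0 0 = 0) (hne : ∃ x y, e x y ≠ 0) :
    2 * p - 2 ≤ (univ.filter (fun z : ZMod p × ZMod p => e z.1 z.2 ≠ 0)).card := by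
  have hprime : p.Prime := Fact.out
  obtain ⟨B, hB⟩ := exists_val p
  let k := IsLocalRing.ResidueField B
  let res : B →+* k := IsLocalRing.residue B
  have hpk : (p : k) = 0 := by
    have h1 : (p : B) ∈ IsLocalRing.maximalIdeal B := by
      rw [← ValuationSubring.coe_mem_nonunits_iff]
      exact_mod_cast hB
    have h2 : res (p : B) = 0 := (IsLocalRing.residue_eq_zero_iff _).mpr h1
    rwa [map_natCast] at h2
  have hch : CharP k p := (CharP.charP_iff_prime_eq_zero hprime).mpr hpk
  let ι : ZMod p →+* k := ZMod.castHom (dvd_refl p) k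
  -- normalisation
  obtain ⟨z0, _, hz0⟩ := Finset.exists_max_image (univ : Finset (ZMod p × ZMod p))
    (fun z => B.valuation (e z.1 z.2)) ⟨(0, 0), mem_univ _⟩
  have hz0ne : e z0.1 z0.2 ≠ 0 := by
    intro h
    obtain ⟨x, y, hxy⟩ := hne
    have h1 := hz0 (x, y) (mem_univ _)
    rw [h, map_zero] at h1
    have h2 : B.valuation (e x y) = 0 := le_antisymm h1 zero_le
    exact hxy ((map_eq_zero _).mp h2)
  have hmem : ∀ x y, e x y / e z0.1 z0.2 ∈ B := by
    intro x y
    rw [← B.valuation_le_one_iff, map_div₀]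
    have h1 := hz0 (x, y) (mem_univ _)
    have h2 : B.valuation (e z0.1 z0.2) ≠ 0 := (map_ne_zero _).mpr hz0ne
    exact div_le_one_of_le₀ h1 zero_le
  let e' : ZMod p → ZMod p → B := fun x y => ⟨e x y / e z0.1 z0.2, hmem x y⟩
  let χ' : ZMod p → B := fun t => ⟨χ t, char_mem B χ t⟩
  have hχ : ∀ t, res (χ' t) = 1 := by
    intro t
    have h1 : (χ' t) ^ p = 1 := by
      apply Subtype.ext
      show (χ t) ^ p = 1
      exact char_pow χ t
    have h2 : (res (χ' t) - 1) ^ p = 0 := by
      rw [sub_pow_char, one_pow, ← map_pow, h1, map_one, sub_self]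
    have h3 := pow_eq_zero_iff (hprime.ne_zero) |>.mp h2
    exact sub_eq_zero.mp h3
  have he' : ∀ x0 y0 v w : ZMod p, (v ≠ 0 ∨ w ≠ 0) → ∑ t, e' (x0 + t * v) (y0 + t * w)
      = ∑ t, χ' (t * (x0 * w - y0 * v)) * e' (t * v) (t * w) := by
    intro x0 y0 v w hvw
    apply Subtype.ext
    have h1 := hlin x0 y0 v w hvw
    push_cast
    show ∑ t, e (x0 + t * v) (y0 + t * w) / e z0.1 z0.2
      = ∑ t, χ (t * (x0 * w - y0 * v)) * (e (t * v) (t * w) / e z0.1 z0.2)
    rw [← Finset.sum_div, h1, Finset.sum_div]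
    exact Finset.sum_congr rfl (fun t _ => by rw [mul_div_assoc])
  let c : ZMod p → ZMod p → k := fun x y => res (e' x y)
  have hc : Lin c := by
    intro x0 y0 v w
    by_cases hvw : v ≠ 0 ∨ w ≠ 0
    · have h1 := congrArg res (he' x0 y0 v w hvw)
      rw [map_sum, map_sum] at h1
      show ∑ t, res (e' (x0 + t * v) (y0 + t * w)) = ∑ t, res (e' (t * v) (t * w))
      rw [h1]
      apply Finset.sum_congr rfl
      intro t _
      rw [map_mul, hχ, one_mul]
    · push Not at hvw
      rw [hvw.1, hvw.2]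
      simp only [mul_zero, add_zero, Finset.sum_const, Finset.card_univ, ZMod.card, nsmul_eq_mul]
      rw [hpk, zero_mul, zero_mul]
  have h1 := comb ι hp c hc (by
      intro x y
      show res (e' (-x) (-y)) = res (e' x y)
      congr 1
      apply Subtype.ext
      show e (-x) (-y) / e z0.1 z0.2 = e x y / e z0.1 z0.2
      rw [heven]) (by
      show res (e' 0 0) = 0
      have : e' 0 0 = 0 := by
        apply Subtype.ext
        show e 0 0 / e z0.1 z0.2 = 0
        rw [h0, zero_div]
      rw [this, map_zero]) (by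
      refine ⟨z0.1, z0.2, ?_⟩
      show res (e' z0.1 z0.2) ≠ 0
      have : e' z0.1 z0.2 = 1 := by
        apply Subtype.ext
        show e z0.1 z0.2 / e z0.1 z0.2 = 1
        exact div_self hz0ne
      rw [this, map_one]
      exact one_ne_zero)
  refine h1.trans (Finset.card_le_card ?_)
  intro z hz
  rw [Finset.mem_filter] at hz ⊢
  refine ⟨mem_univ _, ?_⟩
  intro h
  apply hz.2
  show res (e' z.1 z.2) = 0
  have : e' z.1 z.2 = 0 := by
    apply Subtype.ext
    show e z.1 z.2 / e z0.1 z0.2 = 0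
    rw [h, zero_div]
  rw [this, map_zero]

end Pool.Agent.H207.WH
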